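import Pool.Agent.Helper76K9.XR.Defs

/-!
Point X-rays: the bodies below and above graphs of concave functions.
-/

set_option autoImplicit false

open Set MeasureTheory

namespace Pool.Agent.Helper76K9.XR

theorem body : S_BODY := by
  intro α β h hab hc hcont hpos
  have c0 : Continuous fun z : Plane => z 0 := by fun_prop
  have c1 : Continuous fun z : Plane => z 1 := by fun_prop
  have hint : ∀ x ∈ Ioo α β, (!₂[x, 0] : Plane) ∈ interior (Sub α β h) := by
    intro x hx
    rw [mem_interior]
    refine ⟨{z : Plane | z 0 ∈ Ioo α β} ∩ (fun z : Plane => h (z 0) - |z 1|) ⁻¹' Ioi 0, ?_, ?_, ?_⟩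
    · rintro z ⟨hz0, hz1⟩
      have h1 : 0 < h (z 0) - |z 1| := hz1
      exact ⟨Ioo_subset_Icc_self hz0, by linarith⟩
    · apply ContinuousOn.isOpen_inter_preimage
      · apply ContinuousOn.sub
        · exact hcont.comp c0.continuousOn fun z hz => Ioo_subset_Icc_self hz
        · exact c1.abs.continuousOn
      · exact isOpen_Ioo.preimage c0
      · exact isOpen_Ioi
    · refine ⟨?_, ?_⟩
      · show (!₂[x, 0] : Plane) 0 ∈ Ioo α β
        simpa using hx
      · show 0 < h ((!₂[x, 0] : Plane) 0) - |(!₂[x, 0] : Plane) 1|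
        have := hpos x (Ioo_subset_Icc_self hx)
        simpa using this
  refine ⟨⟨?_, ?_, ?_⟩, hint⟩
  · -- convex
    rintro z ⟨hz0, hz1⟩ w ⟨hw0, hw1⟩ a b ha hb hab1
    have e0 : (a • z + b • w) 0 = a * z 0 + b * w 0 := by simp
    have e1 : (a • z + b • w) 1 = a * z 1 + b * w 1 := by simp
    refine ⟨?_, ?_⟩
    · rw [e0]
      have := (convex_Icc α β) hz0 hw0 ha hb hab1
      simpa using this
    · rw [e0, e1]
      have h1 := hc.2 hz0 hw0 ha hb hab1
      simp only [smul_eq_mul] at h1
      calc |a * z 1 + b * w 1| ≤ |a * z 1| + |b * w 1| := abs_add_le _ _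
        _ = a * |z 1| + b * |w 1| := by rw [abs_mul, abs_mul, abs_of_nonneg ha, abs_of_nonneg hb]
        _ ≤ a * h (z 0) + b * h (w 0) := by gcongr
        _ ≤ _ := h1
  · -- compact
    obtain ⟨M, hM⟩ := (isCompact_Icc.image_of_continuousOn hcont).bddAbove
    have hM' : ∀ x ∈ Icc α β, h x ≤ M := fun x hx => hM (mem_image_of_mem h hx)
    have hK0 : IsCompact ((fun p : ℝ × ℝ => (!₂[p.1, p.2] : Plane)) ''
        (Icc α β ×ˢ Icc (-M) M)) := by
      apply (isCompact_Icc.prod isCompact_Icc).image
      fun_prop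
    refine hK0.of_isClosed_subset ?_ ?_
    · have : Sub α β h = {z : Plane | z 0 ∈ Icc α β} ∩
          (fun z : Plane => h (z 0) - |z 1|) ⁻¹' Ici 0 := by
        ext z
        simp only [Sub, mem_setOf_eq, mem_inter_iff, mem_preimage, mem_Ici, sub_nonneg]
      rw [this]
      apply ContinuousOn.preimage_isClosed_of_isClosed
      · apply ContinuousOn.sub
        · exact hcont.comp c0.continuousOn fun z hz => hz
        · exact c1.abs.continuousOn
      · exact isClosed_Icc.preimage c0
      · exact isClosed_Ici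
    · rintro z ⟨hz0, hz1⟩
      refine ⟨(z 0, z 1), ⟨hz0, ?_⟩, ?_⟩
      · have := hM' _ hz0
        exact abs_le.1 (hz1.trans this)
      · ext i
        fin_cases i <;> simp
  · exact ⟨_, hint ((α + β) / 2) ⟨by linarith, by linarith⟩⟩

end Pool.Agent.Helper76K9.XR
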