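import Pool.Agent.Helper76K9.XR.Defs

/-!
Point X-rays: the chord function of the bodies around graphs.
-/

set_option autoImplicit false

open Set MeasureTheory

namespace Pool.Agent.Helper76K9.XR

theorem chord_sub : S_CHORD := by
  intro α β h o θ ho
  have hset : {t : ℝ | (!₂[o, 0] : Plane) + t • dir θ ∈ Sub α β h} =
      {t : ℝ | o + t * Real.cos θ ∈ Icc α β ∧ |t * Real.sin θ| ≤ h (o + t * Real.cos θ)} := by
    ext t
    have e0 : ((!₂[o, 0] : Plane) + t • dir θ) 0 = o + t * Real.cos θ := by simp [dir]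
    have e1 : ((!₂[o, 0] : Plane) + t • dir θ) 1 = t * Real.sin θ := by simp [dir]
    simp only [Sub, mem_setOf_eq, e0, e1]
  unfold chord
  rw [hset]
  split_ifs with hcos
  · have : {t : ℝ | o + t * Real.cos θ ∈ Icc α β ∧ |t * Real.sin θ| ≤ h (o + t * Real.cos θ)} =
        ∅ := by
      ext t
      simp only [mem_setOf_eq, mem_empty_iff_false, iff_false, not_and, hcos, mul_zero, add_zero]
      intro h1
      exact absurd h1 ho
    rw [this]; simp
  · have e2 : {t : ℝ | o + t * Real.cos θ ∈ Icc α β ∧ |t * Real.sin θ| ≤ h (o + t * Real.cos θ)} =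
        (fun t => Real.cos θ * t) ⁻¹' ((fun t => o + t) ⁻¹'
          {x | x ∈ Icc α β ∧ |Real.tan θ| * |x - o| ≤ h x}) := by
      ext t
      simp only [mem_setOf_eq, mem_preimage, add_sub_cancel_left]
      have e3 : |Real.tan θ| * |Real.cos θ * t| = |t * Real.sin θ| := by
        rw [← abs_mul, Real.tan_eq_sin_div_cos]
        congr 1
        field_simp
      rw [e3, mul_comm (Real.cos θ) t]
    rw [e2, Real.volume_preimage_mul_left hcos, measure_preimage_add, ENNReal.toReal_mul,
      ENNReal.toReal_ofReal (abs_nonneg _), abs_inv]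

end Pool.Agent.Helper76K9.XR
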