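import Mathlib

/-!
Point X-rays (MP_e55421_gt): definitions and statements of the leaves.
-/

open Set MeasureTheory

namespace Pool.Agent.Helper76K9.XR

/-- The plane. -/
abbrev Plane : Type := EuclideanSpace ℝ (Fin 2)

/-- The unit vector with polar angle `θ`. -/
noncomputable def dir (θ : ℝ) : Plane := !₂[Real.cos θ, Real.sin θ]

/-- The chord function of `K` at `x`: the length of the intersection of `K` with the line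
through `x` with polar angle `θ` (`t` is arc length on this line). -/
noncomputable def chord (K : Set Plane) (x : Plane) (θ : ℝ) : ℝ :=
  (volume {t : ℝ | x + t • dir θ ∈ K}).toReal

/-- Convex bodies of the plane. -/
structure IsBody (K : Set Plane) : Prop where
  convex : Convex ℝ K
  compact : IsCompact K
  int : (interior K).Nonempty

/-- The set `{(x, y) | α ≤ x ≤ β, |y| ≤ h x}`. -/
def Sub (α β : ℝ) (h : ℝ → ℝ) : Set Plane := {z | z 0 ∈ Icc α β ∧ |z 1| ≤ h (z 0)}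

/-- Sup over windows of length `ξ` of the smaller of the two end values. -/
noncomputable def S (ℓ : ℝ) (f : ℝ → ℝ) (ξ : ℝ) : ℝ :=
  sSup ((fun y => min (f y) (f (y + ξ))) '' Icc 0 (ℓ - ξ))

/-- The explicit function. -/
noncomputable def E (x : ℝ) : ℝ := (1 + x) * (x + 61 / 20) / ((1 - x) * (x + 21 / 20))

/-! ### Statements of the leaves -/

/-- [ELEM] -/
def S_ELEM : Prop :=
  (∀ x ∈ Icc (-9/10 : ℝ) (-7/10), 0 < E x) ∧ MonotoneOn E (Icc (-9/10 : ℝ) (-7/10)) ∧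
  ConcaveOn ℝ (Icc (-9/10 : ℝ) (-7/10)) E ∧
  (∀ x ∈ Icc (-9/10 : ℝ) (-7/10), ∀ y ∈ Icc (-9/10 : ℝ) (-7/10),
    |Real.log (E x) - Real.log (E y)| ≤ 10 * |x - y|) ∧
  ∃ a ∈ Icc (-9/10 : ℝ) (-4/5), ∫ t in (0:ℝ)..(-7/10 - a), Real.log (E (a + t)) = 0

/-- [BODY] -/
def S_BODY : Prop :=
  ∀ (α β : ℝ) (h : ℝ → ℝ), α < β → ConcaveOn ℝ (Icc α β) h → ContinuousOn h (Icc α β) →
    (∀ x ∈ Icc α β, 0 < h x) →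
    IsBody (Sub α β h) ∧ ∀ x ∈ Ioo α β, (!₂[x, 0] : Plane) ∈ interior (Sub α β h)

/-- [CHORD] -/
def S_CHORD : Prop :=
  ∀ (α β : ℝ) (h : ℝ → ℝ) (o θ : ℝ), o ∉ Icc α β →
    chord (Sub α β h) !₂[o, 0] θ =
      if Real.cos θ = 0 then 0 else
        |Real.cos θ|⁻¹ * (volume {x | x ∈ Icc α β ∧ |Real.tan θ| * |x - o| ≤ h x}).toReal

/-- [TRANS] Similarities carry the standard pair of points to any pair. -/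
def S_TRANS : Prop :=
  ∀ (x y : Plane), x ≠ y → ∃ (φ : Plane → Plane) (ρ θ₀ : ℝ), 0 < ρ ∧ Function.Injective φ ∧
    φ !₂[-1, 0] = x ∧ φ !₂[1, 0] = y ∧ (∀ K, IsBody K → IsBody (φ '' K)) ∧
    (∀ K z θ, chord (φ '' K) (φ z) θ = ρ * chord K z (θ - θ₀)) ∧
    (∀ K, φ '' interior K = interior (φ '' K)) ∧
    (∀ u v w, w ∈ openSegment ℝ u v → φ w ∈ openSegment ℝ (φ u) (φ v))

/-- [LEVEL] -/
def S_LEVEL : Prop :=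
  ∀ (ℓ : ℝ) (f : ℝ → ℝ), 0 < ℓ → ContinuousOn f (Icc 0 ℓ) → QuasiconcaveOn ℝ (Icc 0 ℓ) f →
    ∀ s : ℝ, volume {ξ | ξ ∈ Icc 0 ℓ ∧ s ≤ S ℓ f ξ} = volume {x | x ∈ Icc 0 ℓ ∧ s ≤ f x}

/-- [INT] (from [LEVEL]) -/
def S_INT : Prop :=
  ∀ (ℓ : ℝ) (f : ℝ → ℝ), 0 < ℓ → ContinuousOn f (Icc 0 ℓ) → QuasiconcaveOn ℝ (Icc 0 ℓ) f →
    ContinuousOn (S ℓ f) (Icc 0 ℓ) → ∫ ξ in (0:ℝ)..ℓ, S ℓ f ξ = ∫ x in (0:ℝ)..ℓ, f x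

/-- [SOP] elementary properties of the operator `S`. -/
def S_SOP : Prop :=
  ∀ (ℓ : ℝ), 0 < ℓ →
    (∀ f g : ℝ → ℝ, ContinuousOn f (Icc 0 ℓ) → ContinuousOn g (Icc 0 ℓ) → ∀ δ : ℝ,
      (∀ y ∈ Icc 0 ℓ, |f y - g y| ≤ δ) → ∀ ξ ∈ Icc 0 ℓ, |S ℓ f ξ - S ℓ g ξ| ≤ δ) ∧
    (∀ f : ℝ → ℝ, ContinuousOn f (Icc 0 ℓ) → QuasiconcaveOn ℝ (Icc 0 ℓ) f → 
      AntitoneOn (S ℓ f) (Icc 0 ℓ)) ∧
    (∀ (f : ℝ → ℝ) (M : ℝ), QuasiconcaveOn ℝ (Icc 0 ℓ) f → 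
      (∀ x ∈ Icc 0 ℓ, ∀ y ∈ Icc 0 ℓ, |f x - f y| ≤ M * |x - y|) →
      ∀ x ∈ Icc 0 ℓ, ∀ y ∈ Icc 0 ℓ, |S ℓ f x - S ℓ f y| ≤ M * |x - y|) ∧
    (∀ f : ℝ → ℝ, ContinuousOn f (Icc 0 ℓ) → ConcaveOn ℝ (Icc 0 ℓ) f → 
      ConcaveOn ℝ (Icc 0 ℓ) (S ℓ f)) ∧
    (∀ f : ℝ → ℝ, ContinuousOn f (Icc 0 ℓ) → 
      ∀ ξ ∈ Icc 0 ℓ, S ℓ (fun x => Real.exp (f x)) ξ = Real.exp (S ℓ f ξ))

/-- [FIX] the fixed point theorem. -/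
def S_FIX : Prop :=
  ∀ (ℓ M : ℝ) (e : ℝ → ℝ), 0 < ℓ → (∀ x ∈ Icc 0 ℓ, 0 < e x) → MonotoneOn e (Icc 0 ℓ) →
    ConcaveOn ℝ (Icc 0 ℓ) e →
    (∀ x ∈ Icc 0 ℓ, ∀ y ∈ Icc 0 ℓ, |Real.log (e x) - Real.log (e y)| ≤ M * |x - y|) →
    ∫ x in (0:ℝ)..ℓ, Real.log (e x) = 0 →
    ∃ g : ℝ → ℝ, (∀ x ∈ Icc 0 ℓ, 0 < g x) ∧ AntitoneOn g (Icc 0 ℓ) ∧
      ConcaveOn ℝ (Icc 0 ℓ) g ∧ ContinuousOn g (Icc 0 ℓ) ∧
      ∀ s : ℝ, volume {x | x ∈ Icc 0 ℓ ∧ s ≤ g x} = volume {x | x ∈ Icc 0 ℓ ∧ s ≤ g x * e x}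

end Pool.Agent.Helper76K9.XR
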