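import Pool.Agent.Helper76K9.XR.Defs

/-!
[ELEM] the explicit function.
-/

open Set MeasureTheory

namespace Pool.Agent.Helper76K9.XR

namespace ElemL

/-- The interval. -/
abbrev J : Set ℝ := Icc (-9/10 : ℝ) (-7/10)

theorem mul_aux {p q : ℝ} (hp : p ≠ 0) (hq : q ≠ 0) (A B : ℝ) :
    (-1 + A / p - B / q) * (p * q) = -(p * q) + A * q - B * p := by
  field_simp

theorem E_eq {x : ℝ} (hx : x ∈ J) : E x = -1 + (162/41) / (1 - x) - (2/41) / (x + 21/20) := by
  obtain ⟨h1, h2⟩ := hx
  have h3 : 1 - x ≠ 0 := by intro h; linarith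
  have h4 : x + 21/20 ≠ 0 := by intro h; linarith
  unfold E
  rw [div_eq_iff (mul_ne_zero h3 h4), mul_aux h3 h4]
  ring

theorem E_pos {x : ℝ} (hx : x ∈ J) : 0 < E x := by
  obtain ⟨h1, h2⟩ := hx
  unfold E
  apply div_pos
  · apply mul_pos <;> linarith
  · apply mul_pos <;> linarith

/-- Slopes. -/
noncomputable def sl (x y : ℝ) : ℝ :=
  (162/41) / ((1 - x) * (1 - y)) + (2/41) / ((x + 21/20) * (y + 21/20))

theorem inv_sub_aux {u v : ℝ} (hu : u ≠ 0) (hv : v ≠ 0) (A : ℝ) :
    A / u - A / v = (v - u) * (A / (u * v)) := by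
  field_simp

theorem E_sub {x y : ℝ} (hx : x ∈ J) (hy : y ∈ J) : E y - E x = (y - x) * sl x y := by
  rw [E_eq hx, E_eq hy]
  obtain ⟨h1, h2⟩ := hx
  obtain ⟨h3, h4⟩ := hy
  have h5 : 1 - x ≠ 0 := by intro h; linarith
  have h6 : x + 21/20 ≠ 0 := by intro h; linarith
  have h7 : 1 - y ≠ 0 := by intro h; linarith
  have h8 : y + 21/20 ≠ 0 := by intro h; linarith
  have e1 := inv_sub_aux h7 h5 (162/41)
  have e2 := inv_sub_aux h6 h8 (2/41)
  unfold sl
  rw [mul_add]
  have e3 : (1 - x - (1 - y)) * (162 / 41 / ((1 - y) * (1 - x)))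
      = (y - x) * (162 / 41 / ((1 - x) * (1 - y))) := by
    rw [mul_comm (1 - y) (1 - x)]; congr 1; ring
  have e4 : (y + 21/20 - (x + 21/20)) * (2 / 41 / ((x + 21/20) * (y + 21/20)))
      = (y - x) * (2 / 41 / ((x + 21/20) * (y + 21/20))) := by
    congr 1; ring
  rw [e3] at e1
  rw [e4] at e2
  linarith

theorem sl_pos {x y : ℝ} (hx : x ∈ J) (hy : y ∈ J) : 0 < sl x y := by
  obtain ⟨h1, h2⟩ := hx
  obtain ⟨h3, h4⟩ := hy
  unfold sl
  have h5 : 0 < 1 - x := by linarith
  have h6 : 0 < x + 21/20 := by linarith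
  have h7 : 0 < 1 - y := by linarith
  have h8 : 0 < y + 21/20 := by linarith
  positivity

theorem sl_le {x y : ℝ} (hx : x ∈ J) (hy : y ∈ J) : sl x y ≤ 4 := by
  obtain ⟨h1, h2⟩ := hx
  obtain ⟨h3, h4⟩ := hy
  unfold sl
  have h5 : 17/10 ≤ 1 - x := by linarith
  have h6 : 3/20 ≤ x + 21/20 := by linarith
  have h7 : 17/10 ≤ 1 - y := by linarith
  have h8 : 3/20 ≤ y + 21/20 := by linarith
  have h9 : (162/41) / ((1 - x) * (1 - y)) ≤ (162/41) / ((17/10) * (17/10)) := by
    gcongr
  have h10 : (2/41) / ((x + 21/20) * (y + 21/20)) ≤ (2/41) / ((3/20) * (3/20)) := by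
    gcongr
  calc _ ≤ (162/41) / ((17/10) * (17/10)) + (2/41) / ((3/20) * (3/20)) := add_le_add h9 h10
    _ ≤ 4 := by norm_num

theorem E_mono : MonotoneOn E J := by
  intro x hx y hy hxy
  have h := E_sub hx hy
  have h1 := sl_pos hx hy
  have h2 : 0 ≤ (y - x) * sl x y := mul_nonneg (by linarith) h1.le
  linarith

theorem E_lb {x : ℝ} (hx : x ∈ J) : 3/4 ≤ E x := by
  have h := E_mono (⟨le_rfl, by norm_num⟩ : (-9/10 : ℝ) ∈ J) hx hx.1
  refine le_trans ?_ h
  unfold E
  norm_num

theorem sl_anti {x y z : ℝ} (hx : x ∈ J) (hy : y ∈ J) (hz : z ∈ J) (hxz : x ≤ z) :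
    sl y z ≤ sl x y := by
  obtain ⟨h1, h2⟩ := hx
  obtain ⟨h3, h4⟩ := hy
  obtain ⟨h5, h6⟩ := hz
  have a1 : 0 < 1 - x := by linarith
  have a2 : 0 < x + 21/20 := by linarith
  have a3 : 0 < 1 - y := by linarith
  have a4 : 0 < y + 21/20 := by linarith
  have a5 : 0 < 1 - z := by linarith
  have a6 : 0 < z + 21/20 := by linarith
  have e1 : (162/41) / ((1 - y) * (1 - z)) - (162/41) / ((1 - x) * (1 - y))
      = (z - x) * ((162/41) / ((1 - x) * (1 - y) * (1 - z))) := by
    rw [inv_sub_aux (by positivity) (by positivity)]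
    field_simp
    ring
  have e2 : (2/41) / ((x + 21/20) * (y + 21/20)) - (2/41) / ((y + 21/20) * (z + 21/20))
      = (z - x) * ((2/41) / ((x + 21/20) * (y + 21/20) * (z + 21/20))) := by
    generalize hp : x + 21/20 = p at *
    generalize hq : y + 21/20 = q at *
    generalize hr : z + 21/20 = r at *
    have : z - x = r - p := by rw [← hp, ← hr]; ring
    rw [this, inv_sub_aux (by positivity) (by positivity)]
    field_simp
  have h7 : (162/41) / ((1 - x) * (1 - y) * (1 - z))
      ≤ (2/41) / ((x + 21/20) * (y + 21/20) * (z + 21/20)) := by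
    have b1 : (162/41) / ((1 - x) * (1 - y) * (1 - z))
        ≤ (162/41) / ((17/10) * (17/10) * (17/10) : ℝ) := by
      have c1 : 17/10 ≤ 1 - x := by linarith
      have c2 : 17/10 ≤ 1 - y := by linarith
      have c3 : 17/10 ≤ 1 - z := by linarith
      gcongr
    have b2 : (2/41) / ((7/20) * (7/20) * (7/20) : ℝ)
        ≤ (2/41) / ((x + 21/20) * (y + 21/20) * (z + 21/20)) := by
      have c1 : x + 21/20 ≤ 7/20 := by linarith
      have c2 : y + 21/20 ≤ 7/20 := by linarith
      have c3 : z + 21/20 ≤ 7/20 := by linarith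
      gcongr
    refine b1.trans (le_trans ?_ b2)
    norm_num
  have h8 := mul_le_mul_of_nonneg_left h7 (by linarith : 0 ≤ z - x)
  unfold sl
  linarith

theorem E_conc : ConcaveOn ℝ J E := by
  apply concaveOn_of_slope_anti_adjacent (convex_Icc _ _)
  intro x y z hx hz hxy hyz
  have hy : y ∈ J := ⟨hx.1.trans hxy.le, hyz.le.trans hz.2⟩
  have h1 : z - y ≠ 0 := by intro h; linarith
  have h2 : y - x ≠ 0 := by intro h; linarith
  rw [E_sub hy hz, E_sub hx hy, mul_div_cancel_left₀ _ h1, mul_div_cancel_left₀ _ h2]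
  exact sl_anti hx hy hz (hxy.trans hyz).le

theorem log_lip_side {x y : ℝ} (hx : x ∈ J) (hy : y ∈ J) (hxy : x ≤ y) :
    |Real.log (E x) - Real.log (E y)| ≤ 10 * |x - y| := by
  have hEx := E_pos hx
  have hEy := E_pos hy
  have hm := E_mono hx hy hxy
  have h1 : Real.log (E x) ≤ Real.log (E y) := Real.log_le_log hEx hm
  rw [abs_sub_comm, abs_of_nonneg (by linarith), abs_sub_comm, abs_of_nonneg (by linarith)]
  rw [← Real.log_div hEy.ne' hEx.ne']
  have h2 := Real.log_le_sub_one_of_pos (div_pos hEy hEx)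
  refine h2.trans ?_
  have h3 := E_sub hx hy
  have h4 := sl_le hx hy
  have h5 := E_lb hx
  have h6 : E y / E x - 1 = (y - x) * sl x y / E x := by
    rw [← h3]; field_simp
  rw [h6, div_le_iff₀ hEx]
  have h7 : (y - x) * sl x y ≤ (y - x) * 4 := mul_le_mul_of_nonneg_left h4 (by linarith)
  nlinarith

theorem log_lip {x y : ℝ} (hx : x ∈ J) (hy : y ∈ J) :
    |Real.log (E x) - Real.log (E y)| ≤ 10 * |x - y| := by
  rcases le_total x y with h | h
  · exact log_lip_side hx hy h
  · rw [abs_sub_comm, abs_sub_comm x y]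
    exact log_lip_side hy hx h

theorem log_cont : ContinuousOn (fun x => Real.log (E x)) J := by
  have hL : LipschitzOnWith 10 (fun x => Real.log (E x)) J := by
    apply LipschitzOnWith.of_dist_le_mul
    intro x hx y hy
    rw [Real.dist_eq, Real.dist_eq]
    exact log_lip hx hy
  exact hL.continuousOn

theorem E_tangent {x : ℝ} (hx : x ∈ J) : E x ≤ 1 + 2 * (x + 4/5) := by
  obtain ⟨h1, h2⟩ := hx
  have a1 : 0 < 1 - x := by linarith
  have a2 : 0 < x + 21/20 := by linarith
  unfold E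
  rw [div_le_iff₀ (by positivity)]
  nlinarith [mul_nonneg (sq_nonneg (x + 4/5)) (by linarith : 0 ≤ 11/10 - 2 * (x + 4/5))]

/-- The primitive. -/
noncomputable def G (a : ℝ) : ℝ := ∫ u in a..(-7/10 : ℝ), Real.log (E u)

theorem int_on : IntegrableOn (fun u => Real.log (E u)) (uIcc (-9/10 : ℝ) (-7/10)) := by
  rw [uIcc_of_le (by norm_num)]
  exact log_cont.integrableOn_compact isCompact_Icc

theorem G_cont : ContinuousOn G (Icc (-9/10 : ℝ) (-4/5)) := by
  have h := intervalIntegral.continuousOn_primitive_interval_left int_on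
  rw [uIcc_of_le (by norm_num)] at h
  apply h.mono
  apply Icc_subset_Icc le_rfl (by norm_num)

theorem G_right : 0 ≤ G (-4/5) := by
  unfold G
  apply intervalIntegral.integral_nonneg (by norm_num)
  intro u hu
  apply Real.log_nonneg
  have h := E_mono (⟨by norm_num, by norm_num⟩ : (-4/5 : ℝ) ∈ J)
    (⟨by linarith [hu.1], hu.2⟩ : u ∈ J) hu.1
  refine le_trans ?_ h
  unfold E
  norm_num

theorem G_left : G (-9/10) ≤ 0 := by
  have h1 : G (-9/10) ≤ ∫ u in (-9/10 : ℝ)..(-7/10), 2 * (u + 4/5) := by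
    unfold G
    apply intervalIntegral.integral_mono_on (by norm_num)
    · apply ContinuousOn.intervalIntegrable
      rw [uIcc_of_le (by norm_num)]
      exact log_cont
    · apply Continuous.intervalIntegrable
      fun_prop
    · intro x hx
      have h2 := E_tangent hx
      have h3 := Real.log_le_sub_one_of_pos (E_pos hx)
      linarith
  refine h1.trans ?_
  have : (∫ u in (-9/10 : ℝ)..(-7/10), 2 * (u + 4/5)) = 0 := by
    rw [intervalIntegral.integral_const_mul, intervalIntegral.integral_add (by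
      apply Continuous.intervalIntegrable; fun_prop) (by
      apply Continuous.intervalIntegrable; fun_prop), integral_id,
      intervalIntegral.integral_const]
    norm_num
  rw [this]

end ElemL

open ElemL in
/-- [ELEM] -/
theorem elem : S_ELEM := by
  refine ⟨fun x hx => E_pos hx, E_mono, E_conc, fun x hx y hy => log_lip hx hy, ?_⟩
  have h := intermediate_value_Icc (by norm_num : (-9/10 : ℝ) ≤ -4/5) G_cont
  obtain ⟨a, ha, hG⟩ := h ⟨G_left, G_right⟩
  refine ⟨a, ha, ?_⟩
  rw [intervalIntegral.integral_comp_add_left (fun u => Real.log (E u)) a, add_zero]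
  have : a + (-7/10 - a) = -7/10 := by ring
  rw [this]
  exact hG

end Pool.Agent.Helper76K9.XR
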