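import Pool.Agent.Helper76K9.XR.Defs

/-!
The fixed point theorem (leaf FIX of MP_e55421_gt).
-/

open Set MeasureTheory Filter Topology
open scoped BoundedContinuousFunction

namespace Pool.Agent.Helper76K9.XR

namespace FixL

/-- The invariant class of functions on `[0, ℓ]`. -/
def Cls (ℓ M : ℝ) (f : ℝ → ℝ) : Prop :=
  (∀ x ∈ Icc 0 ℓ, ∀ y ∈ Icc 0 ℓ, |f x - f y| ≤ M * |x - y|) ∧ AntitoneOn f (Icc 0 ℓ) ∧
  ConcaveOn ℝ (Icc 0 ℓ) (fun x => Real.exp (f x))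

/-- The data. -/
structure Data (ℓ M : ℝ) (e : ℝ → ℝ) : Prop where
  hℓ : 0 < ℓ
  pos : ∀ x ∈ Icc 0 ℓ, 0 < e x
  mono : MonotoneOn e (Icc 0 ℓ)
  conc : ConcaveOn ℝ (Icc 0 ℓ) e
  lip : ∀ x ∈ Icc 0 ℓ, ∀ y ∈ Icc 0 ℓ, |Real.log (e x) - Real.log (e y)| ≤ M * |x - y|

theorem cont_of_lip {ℓ M : ℝ} {f : ℝ → ℝ}
    (h : ∀ x ∈ Icc 0 ℓ, ∀ y ∈ Icc 0 ℓ, |f x - f y| ≤ M * |x - y|) :
    ContinuousOn f (Icc 0 ℓ) := by
  have : LipschitzOnWith M.toNNReal f (Icc 0 ℓ) := by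
    refine LipschitzOnWith.of_dist_le_mul fun x hx y hy => ?_
    rw [Real.dist_eq, Real.dist_eq]
    refine (h x hx y hy).trans ?_
    exact mul_le_mul_of_nonneg_right (Real.le_coe_toNNReal M) (abs_nonneg _)
  exact this.continuousOn

theorem quasi {ℓ : ℝ} {f : ℝ → ℝ} (h : ConcaveOn ℝ (Icc 0 ℓ) (fun x => Real.exp (f x))) :
    QuasiconcaveOn ℝ (Icc 0 ℓ) f := by
  intro r
  have := h.quasiconcaveOn (Real.exp r)
  simpa [Real.exp_le_exp] using this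

theorem Data.M0 {ℓ M : ℝ} {e : ℝ → ℝ} (D : Data ℓ M e) : 0 ≤ M := by
  have h := D.lip 0 ⟨le_refl _, D.hℓ.le⟩ ℓ ⟨D.hℓ.le, le_refl _⟩
  have h2 : 0 ≤ M * |0 - ℓ| := (abs_nonneg _).trans h
  have h3 : (0:ℝ) < |0 - ℓ| := by rw [abs_pos]; have := D.hℓ; linarith
  by_contra hc
  push Not at hc
  nlinarith

theorem Data.logmono {ℓ M : ℝ} {e : ℝ → ℝ} (D : Data ℓ M e) :
    MonotoneOn (fun x => Real.log (e x)) (Icc 0 ℓ) := by
  intro x hx y hy hxy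
  exact Real.log_le_log (D.pos x hx) (D.mono hx hy hxy)

theorem add_lip {ℓ M : ℝ} {e : ℝ → ℝ} (D : Data ℓ M e) {f : ℝ → ℝ} (hf : Cls ℓ M f) :
    ∀ x ∈ Icc 0 ℓ, ∀ y ∈ Icc 0 ℓ,
      |(f x + Real.log (e x)) - (f y + Real.log (e y))| ≤ M * |x - y| := by
  have key : ∀ x ∈ Icc 0 ℓ, ∀ y ∈ Icc 0 ℓ, x ≤ y →
      |(f x + Real.log (e x)) - (f y + Real.log (e y))| ≤ M * |x - y| := by
    intro x hx y hy hxy
    have h1 := hf.2.1 hx hy hxy
    have h2 := D.logmono hx hy hxy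
    have h3 := abs_le.1 (hf.1 x hx y hy)
    have h4 := abs_le.1 (D.lip x hx y hy)
    simp only at h2
    rw [abs_le]
    constructor <;> linarith [h3.1, h3.2, h4.1, h4.2]
  intro x hx y hy
  rcases le_total x y with h | h
  · exact key x hx y hy h
  · rw [abs_sub_comm, abs_sub_comm x y]
    exact key y hy x hx h

theorem add_conc {ℓ M : ℝ} {e : ℝ → ℝ} (D : Data ℓ M e) {f : ℝ → ℝ} (hf : Cls ℓ M f) :
    ConcaveOn ℝ (Icc 0 ℓ) (fun x => Real.exp (f x + Real.log (e x))) := by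
  have hanti : AntitoneOn (fun x => Real.exp (f x)) (Icc 0 ℓ) := by
    intro x hx y hy hxy
    exact Real.exp_le_exp.2 (hf.2.1 hx hy hxy)
  have h := hf.2.2.mul D.conc (fun x _ => (Real.exp_pos _).le) (fun x hx => (D.pos x hx).le)
    (hanti.antivaryOn D.mono)
  refine h.congr ?_
  intro x hx
  simp [Real.exp_add, Real.exp_log (D.pos x hx)]

theorem pow_conc {ℓ lam : ℝ} (h0 : 0 ≤ lam) (h1 : lam ≤ 1) {h : ℝ → ℝ}
    (hc : ConcaveOn ℝ (Icc 0 ℓ) (fun x => Real.exp (h x))) :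
    ConcaveOn ℝ (Icc 0 ℓ) (fun x => Real.exp (lam * h x)) := by
  have hr := Real.concaveOn_rpow h0 h1
  have him : (fun x => Real.exp (h x)) '' Icc 0 ℓ ⊆ Ici 0 := by
    rintro _ ⟨x, _, rfl⟩
    exact (Real.exp_pos _).le
  refine ⟨hc.1, fun x hx y hy a b ha hb hab => ?_⟩
  have e1 : ∀ z, Real.exp (lam * h z) = (Real.exp (h z)) ^ lam := by
    intro z
    rw [← Real.exp_mul, mul_comm]
  simp only [e1]
  have h2 := hr.2 (x := Real.exp (h x)) (Real.exp_pos _).le (y := Real.exp (h y))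
    (Real.exp_pos _).le ha hb hab
  have h3 := hc.2 hx hy ha hb hab
  simp only [smul_eq_mul] at h2 h3 ⊢
  refine h2.trans ?_
  exact Real.rpow_le_rpow (by positivity) h3 h0

theorem Cls_congr {ℓ M : ℝ} {f g : ℝ → ℝ} (h : ∀ x ∈ Icc 0 ℓ, f x = g x) (hf : Cls ℓ M f) :
    Cls ℓ M g := by
  refine ⟨fun x hx y hy => ?_, fun x hx y hy hxy => ?_, ?_⟩
  · rw [← h x hx, ← h y hy]; exact hf.1 x hx y hy
  · rw [← h x hx, ← h y hy]; exact hf.2.1 hx hy hxy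
  · refine hf.2.2.congr ?_
    intro x hx
    simp [h x hx]

theorem Cls_of_tendsto {ℓ M : ℝ} {F : ℕ → ℝ → ℝ} {f : ℝ → ℝ} (hF : ∀ n, Cls ℓ M (F n))
    (hl : ∀ x ∈ Icc 0 ℓ, Tendsto (fun n => F n x) atTop (𝓝 (f x))) : Cls ℓ M f := by
  refine ⟨fun x hx y hy => ?_, fun x hx y hy hxy => ?_, ⟨(hF 0).2.2.1, fun x hx y hy a b ha hb hab => ?_⟩⟩
  · exact le_of_tendsto' (((hl x hx).sub (hl y hy)).abs) (fun n => (hF n).1 x hx y hy)
  · exact le_of_tendsto_of_tendsto' (hl y hy) (hl x hx) (fun n => (hF n).2.1 hx hy hxy)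
  · have hz : a • x + b • y ∈ Icc 0 ℓ := (hF 0).2.2.1 hx hy ha hb hab
    have e : ∀ z ∈ Icc 0 ℓ, Tendsto (fun n => Real.exp (F n z)) atTop (𝓝 (Real.exp (f z))) :=
      fun z hz => (Real.continuous_exp.tendsto _).comp (hl z hz)
    exact le_of_tendsto_of_tendsto' (((e x hx).const_smul a).add ((e y hy).const_smul b))
      (e _ hz) (fun n => (hF n).2.2.2 hx hy ha hb hab)

/-- One step of the iteration. -/
noncomputable def stepf (ℓ : ℝ) (e : ℝ → ℝ) (lam : ℝ) (f : ℝ → ℝ) (ξ : ℝ) : ℝ :=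
  lam * S ℓ (fun x => f x + Real.log (e x)) ξ

theorem step_cls (hS : S_SOP) {ℓ M : ℝ} {e : ℝ → ℝ} (D : Data ℓ M e) {lam : ℝ} (h0 : 0 ≤ lam)
    (h1 : lam ≤ 1) {f : ℝ → ℝ} (hf : Cls ℓ M f) : Cls ℓ M (stepf ℓ e lam f) := by
  obtain ⟨-, h2, h3, h4, h5⟩ := hS ℓ D.hℓ
  have hl := add_lip D hf
  have hc := add_conc D hf
  have hq := quasi hc
  have hcont : ContinuousOn (fun x => f x + Real.log (e x)) (Icc 0 ℓ) := cont_of_lip hl
  have l3 := h3 _ M hq hl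
  refine ⟨fun x hx y hy => ?_, fun x hx y hy hxy => ?_, ?_⟩
  · unfold stepf
    rw [← mul_sub, abs_mul, abs_of_nonneg h0]
    calc lam * _ ≤ 1 * |S ℓ (fun x => f x + Real.log (e x)) x - S ℓ (fun x => f x + Real.log (e x)) y| :=
          mul_le_mul_of_nonneg_right h1 (abs_nonneg _)
      _ ≤ _ := by rw [one_mul]; exact l3 x hx y hy
  · exact mul_le_mul_of_nonneg_left (h2 _ hcont hq hx hy hxy) h0
  · unfold stepf
    refine pow_conc h0 h1 ?_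
    have hce : ContinuousOn (fun x => Real.exp (f x + Real.log (e x))) (Icc 0 ℓ) :=
      Real.continuous_exp.comp_continuousOn hcont
    refine (h4 _ hce hc).congr ?_
    intro ξ hξ
    exact h5 _ hcont ξ hξ

theorem step_cont {ℓ M : ℝ} {f : ℝ → ℝ} (hf : Cls ℓ M f) : ContinuousOn f (Icc 0 ℓ) :=
  cont_of_lip hf.1

/-- Bounded continuous functions on `[0, ℓ]`. -/
abbrev B (ℓ : ℝ) : Type := (Icc (0:ℝ) ℓ) →ᵇ ℝ

/-- Extension to the line. -/
noncomputable def ext {ℓ : ℝ} (h : 0 ≤ ℓ) (f : B ℓ) : ℝ → ℝ := IccExtend h f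

theorem ext_mem {ℓ : ℝ} (h : 0 ≤ ℓ) (f : B ℓ) {x : ℝ} (hx : x ∈ Icc 0 ℓ) :
    ext h f x = f ⟨x, hx⟩ := IccExtend_of_mem h f hx

/-- The closed set. -/
def A (ℓ M : ℝ) (h : 0 ≤ ℓ) : Set (B ℓ) := {f | Cls ℓ M (ext h f)}

theorem A_closed (ℓ M : ℝ) (h : 0 ≤ ℓ) : IsClosed (A ℓ M h) := by
  refine isSeqClosed_iff_isClosed.1 ?_
  intro F f hF hl
  refine Cls_of_tendsto hF ?_
  intro x hx
  simp only [ext_mem h _ hx]
  exact ((continuous_eval_const (F := B ℓ) (⟨x, hx⟩ : Icc (0:ℝ) ℓ)).tendsto f).comp hl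

theorem zero_mem {ℓ M : ℝ} (h : 0 ≤ ℓ) (hM : 0 ≤ M) : (0 : B ℓ) ∈ A ℓ M h := by
  have : ∀ x ∈ Icc 0 ℓ, (fun _ : ℝ => (0:ℝ)) x = ext h (0 : B ℓ) x := by
    intro x hx
    rw [ext_mem h _ hx]; simp
  refine Cls_congr this ⟨fun x _ y _ => ?_, fun x _ y _ _ => le_refl _, ?_⟩
  · simp only [sub_self, abs_zero]; positivity
  · simpa using concaveOn_const (1:ℝ) (convex_Icc (0:ℝ) ℓ)

/-- Restriction of a function of the class. -/
noncomputable def mk {ℓ M : ℝ} (f : ℝ → ℝ) (hf : Cls ℓ M f) : B ℓ :=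
  BoundedContinuousFunction.mkOfCompact ⟨fun ξ : Icc (0:ℝ) ℓ => f ξ,
    (continuousOn_iff_continuous_domRestrict.1 (step_cont hf))⟩

theorem mk_apply {ℓ M : ℝ} (f : ℝ → ℝ) (hf : Cls ℓ M f) (ξ : Icc (0:ℝ) ℓ) : mk f hf ξ = f ξ := rfl

theorem mk_mem {ℓ M : ℝ} (h : 0 ≤ ℓ) (f : ℝ → ℝ) (hf : Cls ℓ M f) : mk f hf ∈ A ℓ M h := by
  refine Cls_congr (fun x hx => ?_) hf
  rw [ext_mem h _ hx, mk_apply]

/-- The contraction. -/
noncomputable def Φ (hS : S_SOP) {ℓ M : ℝ} {e : ℝ → ℝ} (D : Data ℓ M e) {lam : ℝ} (h0 : 0 ≤ lam)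
    (h1 : lam ≤ 1) (f : A ℓ M D.hℓ.le) : A ℓ M D.hℓ.le :=
  ⟨mk _ (step_cls hS D h0 h1 f.2), mk_mem _ _ _⟩

theorem step_close (hS : S_SOP) {ℓ M : ℝ} {e : ℝ → ℝ} (D : Data ℓ M e) {f g : B ℓ}
    (hf : f ∈ A ℓ M D.hℓ.le) (hg : g ∈ A ℓ M D.hℓ.le) {ξ : ℝ} (hξ : ξ ∈ Icc 0 ℓ) :
    |S ℓ (fun x => ext D.hℓ.le f x + Real.log (e x)) ξ -
      S ℓ (fun x => ext D.hℓ.le g x + Real.log (e x)) ξ| ≤ dist f g := by
  obtain ⟨h1, -⟩ := hS ℓ D.hℓ
  refine h1 _ _ (cont_of_lip (add_lip D hf)) (cont_of_lip (add_lip D hg)) _ (fun y hy => ?_) ξ hξ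
  rw [ext_mem _ _ hy, ext_mem _ _ hy, add_sub_add_right_eq_sub, ← Real.dist_eq]
  exact BoundedContinuousFunction.dist_coe_le_dist _

theorem Φ_contr (hS : S_SOP) {ℓ M : ℝ} {e : ℝ → ℝ} (D : Data ℓ M e) {lam : ℝ} (h0 : 0 ≤ lam)
    (h1 : lam < 1) : ContractingWith ⟨lam, h0⟩ (Φ hS D h0 h1.le) := by
  refine ⟨by exact_mod_cast h1, LipschitzWith.of_dist_le_mul fun f g => ?_⟩
  rw [Subtype.dist_eq, Subtype.dist_eq]
  refine (BoundedContinuousFunction.dist_le (by positivity)).2 fun ξ => ?_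
  rw [Real.dist_eq]
  change |stepf ℓ e lam _ ξ - stepf ℓ e lam _ ξ| ≤ lam * dist (f : B ℓ) (g : B ℓ)
  unfold stepf
  rw [← mul_sub, abs_mul, abs_of_nonneg h0]
  exact mul_le_mul_of_nonneg_left (step_close hS D f.2 g.2 ξ.2) h0

/-- The fixed point of the contraction. -/
theorem exists_lam (hS : S_SOP) {ℓ M : ℝ} {e : ℝ → ℝ} (D : Data ℓ M e) {lam : ℝ} (h0 : 0 ≤ lam)
    (h1 : lam < 1) : ∃ f : B ℓ, f ∈ A ℓ M D.hℓ.le ∧ ∀ ξ ∈ Icc 0 ℓ,
      ext D.hℓ.le f ξ = lam * S ℓ (fun x => ext D.hℓ.le f x + Real.log (e x)) ξ := by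
  have : CompleteSpace (A ℓ M D.hℓ.le) := (A_closed ℓ M D.hℓ.le).completeSpace_coe
  have : Nonempty (A ℓ M D.hℓ.le) := ⟨⟨0, zero_mem _ D.M0⟩⟩
  have hc := Φ_contr hS D h0 h1
  set f := hc.fixedPoint with hfdef
  have hfix : Φ hS D h0 h1.le f = f := hc.fixedPoint_isFixedPt
  refine ⟨f, f.2, fun ξ hξ => ?_⟩
  have h := congrArg (fun g : A ℓ M D.hℓ.le => (g : B ℓ) ⟨ξ, hξ⟩) hfix
  rw [ext_mem _ _ hξ]
  exact h.symm

/-- The mean of the fixed point vanishes. -/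
theorem mean_zero (hI : S_INT) (hS : S_SOP) {ℓ M : ℝ} {e : ℝ → ℝ} (D : Data ℓ M e)
    (hint : ∫ x in (0:ℝ)..ℓ, Real.log (e x) = 0) {lam : ℝ} (h1 : lam < 1)
    {f : ℝ → ℝ} (hf : Cls ℓ M f)
    (hfix : ∀ ξ ∈ Icc 0 ℓ, f ξ = lam * S ℓ (fun x => f x + Real.log (e x)) ξ) :
    ∫ x in (0:ℝ)..ℓ, f x = 0 := by
  obtain ⟨-, -, h3, -, -⟩ := hS ℓ D.hℓ
  have hl := add_lip D hf
  have hq := quasi (add_conc D hf)
  have hcont : ContinuousOn (fun x => f x + Real.log (e x)) (Icc 0 ℓ) := cont_of_lip hl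
  have hSc : ContinuousOn (S ℓ (fun x => f x + Real.log (e x))) (Icc 0 ℓ) :=
    cont_of_lip (h3 _ M hq hl)
  have hI' := hI ℓ _ D.hℓ hcont hq hSc
  have e1 : ∫ x in (0:ℝ)..ℓ, f x = lam * ∫ x in (0:ℝ)..ℓ, S ℓ (fun x => f x + Real.log (e x)) x := by
    rw [← intervalIntegral.integral_const_mul]
    refine intervalIntegral.integral_congr fun x hx => ?_
    rw [uIcc_of_le D.hℓ.le] at hx
    exact hfix x hx
  have i1 : IntervalIntegrable f volume 0 ℓ := by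
    refine ContinuousOn.intervalIntegrable ?_
    rw [uIcc_of_le D.hℓ.le]; exact step_cont hf
  have i2 : IntervalIntegrable (fun x => Real.log (e x)) volume 0 ℓ := by
    refine ContinuousOn.intervalIntegrable ?_
    rw [uIcc_of_le D.hℓ.le]; exact cont_of_lip D.lip
  rw [hI', intervalIntegral.integral_add i1 i2, hint, add_zero] at e1
  have : (1 - lam) * ∫ x in (0:ℝ)..ℓ, f x = 0 := by linarith
  rcases mul_eq_zero.1 this with h | h
  · linarith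
  · exact h

theorem bound {ℓ M : ℝ} (hℓ : 0 < ℓ) (hM : 0 ≤ M) {f : ℝ → ℝ} (hf : Cls ℓ M f)
    (hint : ∫ x in (0:ℝ)..ℓ, f x = 0) : ∀ x ∈ Icc 0 ℓ, |f x| ≤ M * ℓ := by
  intro x hx
  have hd : ∀ y ∈ Icc 0 ℓ, |f x - f y| ≤ M * ℓ := by
    intro y hy
    refine (hf.1 x hx y hy).trans (mul_le_mul_of_nonneg_left ?_ hM)
    rw [abs_le]; constructor <;> linarith [hx.1, hx.2, hy.1, hy.2]
  have i1 : IntervalIntegrable f volume 0 ℓ := by
    refine ContinuousOn.intervalIntegrable ?_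
    rw [uIcc_of_le hℓ.le]; exact step_cont hf
  rw [abs_le]
  constructor
  · -- f x ≥ - Mℓ
    have : ∫ y in (0:ℝ)..ℓ, f y ≤ ∫ _ in (0:ℝ)..ℓ, (f x + M * ℓ) := by
      refine intervalIntegral.integral_mono_on hℓ.le i1 (by simp) fun y hy => ?_
      have := (abs_le.1 (hd y hy)).1
      linarith
    rw [hint] at this
    simp only [intervalIntegral.integral_const, sub_zero, smul_eq_mul] at this
    have : 0 ≤ f x + M * ℓ := nonneg_of_mul_nonneg_right this hℓ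
    linarith
  · have : ∫ _ in (0:ℝ)..ℓ, (f x - M * ℓ) ≤ ∫ y in (0:ℝ)..ℓ, f y := by
      refine intervalIntegral.integral_mono_on hℓ.le (by simp) i1 fun y hy => ?_
      have := (abs_le.1 (hd y hy)).2
      linarith
    rw [hint] at this
    simp only [intervalIntegral.integral_const, sub_zero, smul_eq_mul] at this
    nlinarith

theorem exists_fix (hI : S_INT) (hS : S_SOP) {ℓ M : ℝ} {e : ℝ → ℝ} (D : Data ℓ M e)
    (hint : ∫ x in (0:ℝ)..ℓ, Real.log (e x) = 0) :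
    ∃ p : ℝ → ℝ, Cls ℓ M p ∧ ∀ ξ ∈ Icc 0 ℓ, p ξ = S ℓ (fun x => p x + Real.log (e x)) ξ := by
  have hℓ := D.hℓ
  have hM := D.M0
  -- the parameters
  have hlam0 : ∀ n : ℕ, (0:ℝ) ≤ 1 - 1 / (n + 2) := by
    intro n
    have h2 : (0:ℝ) < (n:ℝ) + 2 := by positivity
    have : 1 / ((n:ℝ) + 2) ≤ 1 := by
      rw [div_le_one h2]; have : (0:ℝ) ≤ n := Nat.cast_nonneg n
      linarith
    linarith
  have hlam1 : ∀ n : ℕ, 1 - 1 / ((n:ℝ) + 2) < 1 := by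
    intro n
    have : (0:ℝ) < 1 / ((n:ℝ) + 2) := by positivity
    linarith
  have hlim : Tendsto (fun n : ℕ => 1 - 1 / ((n:ℝ) + 2)) atTop (𝓝 1) := by
    have h1 : Tendsto (fun n : ℕ => (n:ℝ) + 2) atTop atTop :=
      tendsto_atTop_add_const_right _ _ tendsto_natCast_atTop_atTop
    have h2 : Tendsto (fun n : ℕ => 1 / ((n:ℝ) + 2)) atTop (𝓝 0) := by
      refine (h1.inv_tendsto_atTop).congr fun n => ?_
      simp
    simpa using (tendsto_const_nhds (x := (1:ℝ))).sub h2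
  choose f hfA hfix using fun n : ℕ => exists_lam hS D (hlam0 n) (hlam1 n)
  -- compactness
  set K : Set (B ℓ) := A ℓ M hℓ.le ∩ {g | ∀ x, g x ∈ Icc (-(M * ℓ)) (M * ℓ)} with hK
  have hKc : IsCompact K := by
    refine BoundedContinuousFunction.arzela_ascoli₂ (Icc (-(M * ℓ)) (M * ℓ)) isCompact_Icc K ?_
      (fun g x hg => hg.2 x) ?_
    · refine (A_closed ℓ M hℓ.le).inter ?_
      have : {g : B ℓ | ∀ x, g x ∈ Icc (-(M * ℓ)) (M * ℓ)} =
          ⋂ x, {g : B ℓ | g x ∈ Icc (-(M * ℓ)) (M * ℓ)} := by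
        ext g; simp
      rw [this]
      exact isClosed_iInter fun x => isClosed_Icc.preimage (continuous_eval_const (F := B ℓ) x)
    · refine Metric.equicontinuous_of_continuity_modulus (fun t => M * t) ?_ _ ?_
      · have : Continuous fun t : ℝ => M * t := by fun_prop
        simpa using this.tendsto 0
      · intro x y g
        have h := g.2.1.1 x x.2 y y.2
        rw [ext_mem _ _ x.2, ext_mem _ _ y.2] at h
        rw [Real.dist_eq, Subtype.dist_eq, Real.dist_eq]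
        exact h
  have hfK : ∀ n, f n ∈ K := by
    intro n
    refine ⟨hfA n, fun x => ?_⟩
    have hm := mean_zero hI hS D hint (hlam1 n) (hfA n) (hfix n)
    have hb := bound hℓ hM (hfA n) hm x x.2
    rw [ext_mem _ _ x.2] at hb
    exact abs_le.1 hb
  obtain ⟨p, hpK, φ, hφ, hpl⟩ := hKc.tendsto_subseq hfK
  refine ⟨ext hℓ.le p, hpK.1, fun ξ hξ => ?_⟩
  have t1 : Tendsto (fun n => ext hℓ.le (f (φ n)) ξ) atTop (𝓝 (ext hℓ.le p ξ)) := by
    simp only [ext_mem _ _ hξ]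
    exact ((continuous_eval_const (F := B ℓ) (⟨ξ, hξ⟩ : Icc (0:ℝ) ℓ)).tendsto p).comp hpl
  have t2 : Tendsto (fun n => S ℓ (fun x => ext hℓ.le (f (φ n)) x + Real.log (e x)) ξ) atTop
      (𝓝 (S ℓ (fun x => ext hℓ.le p x + Real.log (e x)) ξ)) := by
    rw [tendsto_iff_dist_tendsto_zero]
    have h0 : Tendsto (fun n => dist (f (φ n)) p) atTop (𝓝 0) :=
      tendsto_iff_dist_tendsto_zero.1 hpl
    refine squeeze_zero (fun n => dist_nonneg) (fun n => ?_) h0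
    rw [Real.dist_eq]
    exact step_close hS D (hfA _) hpK.1 hξ
  have t3 : Tendsto (fun n => ext hℓ.le (f (φ n)) ξ) atTop
      (𝓝 (1 * S ℓ (fun x => ext hℓ.le p x + Real.log (e x)) ξ)) := by
    have : (fun n => ext hℓ.le (f (φ n)) ξ) = fun n => (1 - 1 / (((φ n : ℕ):ℝ) + 2)) *
        S ℓ (fun x => ext hℓ.le (f (φ n)) x + Real.log (e x)) ξ := by
      ext n
      exact hfix (φ n) ξ hξ
    rw [this]
    exact (hlim.comp hφ.tendsto_atTop).mul t2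
  rw [one_mul] at t3
  exact tendsto_nhds_unique t1 t3

end FixL

open FixL in
/-- [FIX] -/
theorem fix (hL : S_LEVEL) (hI : S_INT) (hS : S_SOP) : S_FIX := by
  intro ℓ M e hℓ hpos hmono hconc hlip hint
  have D : Data ℓ M e := ⟨hℓ, hpos, hmono, hconc, hlip⟩
  obtain ⟨p, hp, hfix⟩ := exists_fix hI hS D hint
  have hcont : ContinuousOn (fun x => p x + Real.log (e x)) (Icc 0 ℓ) := cont_of_lip (add_lip D hp)
  have hq := quasi (add_conc D hp)
  refine ⟨fun x => Real.exp (p x), fun x _ => Real.exp_pos _, ?_, hp.2.2, ?_, ?_⟩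
  · intro x hx y hy hxy
    exact Real.exp_le_exp.2 (hp.2.1 hx hy hxy)
  · exact Real.continuous_exp.comp_continuousOn (step_cont hp)
  · intro s
    rcases le_or_gt s 0 with hs | hs
    · congr 1
      ext x
      simp only [mem_ofPred_eq]
      constructor
      · rintro ⟨hx, -⟩
        refine ⟨hx, hs.trans ?_⟩
        have := hpos x hx
        positivity
      · rintro ⟨hx, -⟩
        exact ⟨hx, hs.trans (Real.exp_pos _).le⟩
    · have h := hL ℓ _ hℓ hcont hq (Real.log s)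
      have e1 : {x | x ∈ Icc 0 ℓ ∧ s ≤ Real.exp (p x)} =
          {ξ | ξ ∈ Icc 0 ℓ ∧ Real.log s ≤ S ℓ (fun x => p x + Real.log (e x)) ξ} := by
        ext x
        simp only [mem_ofPred_eq]
        refine and_congr_right fun hx => ?_
        rw [← hfix x hx, Real.log_le_iff_le_exp hs]
      have e2 : {x | x ∈ Icc 0 ℓ ∧ s ≤ Real.exp (p x) * e x} =
          {x | x ∈ Icc 0 ℓ ∧ Real.log s ≤ p x + Real.log (e x)} := by
        ext x
        simp only [mem_ofPred_eq]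
        refine and_congr_right fun hx => ?_
        rw [Real.log_le_iff_le_exp hs, Real.exp_add, Real.exp_log (hpos x hx)]
      rw [e1, e2, h]

end Pool.Agent.Helper76K9.XR
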