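import Pool.Agent.Helper76K9.XR.Defs

set_option autoImplicit false

open Set MeasureTheory

namespace Pool.Agent.Helper76K9.XR

namespace LevelL

theorem cont_min {ℓ : ℝ} {f : ℝ → ℝ} (hf : ContinuousOn f (Icc 0 ℓ)) {ξ : ℝ} (hξ : ξ ∈ Icc 0 ℓ) :
    ContinuousOn (fun y => min (f y) (f (y + ξ))) (Icc 0 (ℓ - ξ)) := by
  obtain ⟨h0, h1⟩ := hξ
  have h2 : ContinuousOn f (Icc 0 (ℓ - ξ)) :=
    hf.mono (Icc_subset_Icc le_rfl (by linarith))
  have h3 : ContinuousOn (fun y => f (y + ξ)) (Icc 0 (ℓ - ξ)) := by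
    refine hf.comp (by fun_prop) ?_
    intro y hy
    exact ⟨by linarith [hy.1], by linarith [hy.2]⟩
  exact ContinuousOn.inf h2 h3

/-- the supremum is attained -/
theorem attained {ℓ : ℝ} {f : ℝ → ℝ} (hf : ContinuousOn f (Icc 0 ℓ)) {ξ : ℝ}
    (hξ : ξ ∈ Icc 0 ℓ) :
    ∃ y ∈ Icc 0 (ℓ - ξ), S ℓ f ξ = min (f y) (f (y + ξ)) := by
  have hne : (Icc 0 (ℓ - ξ)).Nonempty := nonempty_Icc.mpr (by linarith [hξ.2])
  obtain ⟨y, hy, h1⟩ := isCompact_Icc.exists_isMaxOn hne (cont_min hf hξ)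
  refine ⟨y, hy, ?_⟩
  apply IsGreatest.csSup_eq
  refine ⟨⟨y, hy, rfl⟩, ?_⟩
  rintro _ ⟨z, hz, rfl⟩
  exact h1 hz

/-- the values are below the supremum -/
theorem le_S {ℓ : ℝ} {f : ℝ → ℝ} (hf : ContinuousOn f (Icc 0 ℓ)) {ξ : ℝ}
    (hξ : ξ ∈ Icc 0 ℓ) {y : ℝ} (hy : y ∈ Icc 0 (ℓ - ξ)) :
    min (f y) (f (y + ξ)) ≤ S ℓ f ξ := by
  refine le_csSup ?_ ⟨y, hy, rfl⟩
  exact (isCompact_Icc.image_of_continuousOn (cont_min hf hξ)).bddAbove

end LevelL

open LevelL in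
theorem level : S_LEVEL := by
  intro ℓ f hℓ hf hq s
  set A : Set ℝ := {x | x ∈ Icc 0 ℓ ∧ s ≤ f x} with hA
  have hAc : Convex ℝ A := hq s
  have hAcl : IsClosed A := by
    have h1 := hf.preimage_isClosed_of_isClosed isClosed_Icc (isClosed_Ici (a := s))
    exact h1
  have hAb : A ⊆ Icc 0 ℓ := fun x hx => hx.1
  by_cases hne : A.Nonempty
  · have hconn : IsConnected A := ⟨hne, hAc.isPreconnected⟩
    have hbb : BddBelow A := bddBelow_Icc.mono hAb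
    have hba : BddAbove A := bddAbove_Icc.mono hAb
    have hAe : A = Icc (sInf A) (sSup A) :=
      eq_Icc_csInf_csSup_of_connected_bdd_closed hconn hbb hba hAcl
    set y₀ := sInf A with hy₀
    set y₁ := sSup A with hy₁
    have h01 : y₀ ≤ y₁ := csInf_le_csSup hne hbb hba
    have m0 : y₀ ∈ A := by rw [hAe]; exact ⟨le_rfl, h01⟩
    have m1 : y₁ ∈ A := by rw [hAe]; exact ⟨h01, le_rfl⟩
    have key : {ξ | ξ ∈ Icc 0 ℓ ∧ s ≤ S ℓ f ξ} = Icc 0 (y₁ - y₀) := by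
      ext ξ
      constructor
      · rintro ⟨h1, h2⟩
        obtain ⟨y, hy, h3⟩ := attained hf h1
        rw [h3] at h2
        have h4 : y ∈ A := ⟨⟨hy.1, by linarith [hy.2, h1.1]⟩, h2.trans (min_le_left _ _)⟩
        have h5 : y + ξ ∈ A :=
          ⟨⟨by linarith [hy.1, h1.1], by linarith [hy.2]⟩, h2.trans (min_le_right _ _)⟩
        rw [hAe] at h4 h5
        exact ⟨h1.1, by linarith [h4.1, h5.2]⟩
      · rintro ⟨h1, h2⟩
        have h3 : ξ ∈ Icc 0 ℓ := ⟨h1, by linarith [m0.1.1, m1.1.2]⟩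
        have h4 : y₀ ∈ Icc 0 (ℓ - ξ) := ⟨m0.1.1, by linarith [m1.1.2]⟩
        have h5 : y₀ + ξ ∈ A := by
          rw [hAe]
          exact ⟨by linarith, by linarith⟩
        exact ⟨h3, (le_min m0.2 h5.2).trans (le_S hf h3 h4)⟩
    rw [key, hAe, Real.volume_Icc, Real.volume_Icc, sub_zero]
  · have h1 : {ξ | ξ ∈ Icc 0 ℓ ∧ s ≤ S ℓ f ξ} = ∅ := by
      rw [Set.eq_empty_iff_forall_notMem]
      rintro ξ ⟨h1, h2⟩
      obtain ⟨y, hy, h3⟩ := attained hf h1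
      rw [h3] at h2
      exact hne ⟨y, ⟨hy.1, by linarith [hy.2, h1.1]⟩, h2.trans (min_le_left _ _)⟩
    rw [h1, Set.not_nonempty_iff_eq_empty.mp hne]

theorem int_S : S_LEVEL → S_INT := by
  intro hL ℓ f hℓ hf hq hS
  have hf' : AEMeasurable f (volume.restrict (Icc 0 ℓ)) := hf.aemeasurable measurableSet_Icc
  have hS' : AEMeasurable (S ℓ f) (volume.restrict (Icc 0 ℓ)) :=
    hS.aemeasurable measurableSet_Icc
  have hfin : IsFiniteMeasure (volume.restrict (Icc 0 ℓ)) :=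
    ⟨by rw [Measure.restrict_apply_univ]; exact measure_Icc_lt_top⟩
  have h1 : (volume.restrict (Icc 0 ℓ)).map (S ℓ f) = (volume.restrict (Icc 0 ℓ)).map f := by
    apply Measure.ext_of_Ici
    intro s
    rw [Measure.map_apply_of_aemeasurable hS' measurableSet_Ici,
      Measure.map_apply_of_aemeasurable hf' measurableSet_Ici,
      Measure.restrict_apply' measurableSet_Icc, Measure.restrict_apply' measurableSet_Icc]
    have h2 := hL ℓ f hℓ hf hq s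
    have e1 : S ℓ f ⁻¹' Ici s ∩ Icc 0 ℓ = {ξ | ξ ∈ Icc 0 ℓ ∧ s ≤ S ℓ f ξ} := by
      ext x; exact and_comm
    have e2 : f ⁻¹' Ici s ∩ Icc 0 ℓ = {x | x ∈ Icc 0 ℓ ∧ s ≤ f x} := by
      ext x; exact and_comm
    rw [e1, e2, h2]
  rw [intervalIntegral.integral_of_le hℓ.le, intervalIntegral.integral_of_le hℓ.le,
    ← integral_Icc_eq_integral_Ioc, ← integral_Icc_eq_integral_Ioc]
  have h3 := integral_map (μ := volume.restrict (Icc 0 ℓ)) hS'
    (f := fun y : ℝ => y) aestronglyMeasurable_id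
  have h4 := integral_map (μ := volume.restrict (Icc 0 ℓ)) hf'
    (f := fun y : ℝ => y) aestronglyMeasurable_id
  rw [← h3, ← h4, h1]

theorem int_S' : S_INT := int_S level

end Pool.Agent.Helper76K9.XR
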