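import Pool.Agent.Helper76K9.XR.Defs

/-!
Assembly: two different convex bodies with the same chord functions at `(-1,0)` and `(1,0)`,
then at any two distinct points (MP_e55421_gt).
-/

open Set MeasureTheory

namespace Pool.Agent.Helper76K9.XR

namespace MainL

theorem vol_shift (a : ℝ) (U : Set ℝ) : volume {x : ℝ | x - a ∈ U} = volume U := by
  have := measure_preimage_add_right (volume : Measure ℝ) (-a) U
  rw [← this]
  rfl

theorem vol_refl (c : ℝ) (U : Set ℝ) : volume {x : ℝ | -x - c ∈ U} = volume U := by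
  have h1 := Measure.measure_preimage_neg (volume : Measure ℝ) ({y : ℝ | y - c ∈ U})
  rw [vol_shift] at h1
  exact h1

/-- The factor of `k`. -/
noncomputable def F (x : ℝ) : ℝ := (1 + x) * (x + 61 / 20) / (x + 21 / 20)

theorem F_eq {x : ℝ} (hx : x + 21 / 20 ≠ 0) :
    F x = x + 3 - (1 / 10) * (x + 21 / 20)⁻¹ := by
  unfold F
  rw [div_eq_iff hx]
  have h := inv_mul_cancel₀ hx
  linear_combination (1 / 10) * h

theorem F_pos {x : ℝ} (hx : x ∈ Icc (-9/10 : ℝ) (-7/10)) : 0 < F x := by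
  unfold F
  have h1 := hx.1
  have h2 := hx.2
  apply div_pos (mul_pos (by linarith) (by linarith)) (by linarith)

theorem F_mono : MonotoneOn F (Icc (-9/10 : ℝ) (-7/10)) := by
  intro x hx y hy hxy
  have h1 : 0 < x + 21 / 20 := by linarith [hx.1]
  have h2 : 0 < y + 21 / 20 := by linarith [hy.1]
  rw [F_eq h1.ne', F_eq h2.ne']
  have : (y + 21 / 20)⁻¹ ≤ (x + 21 / 20)⁻¹ := inv_anti₀ h1 (by linarith)
  linarith

theorem F_conc : ConcaveOn ℝ (Icc (-9/10 : ℝ) (-7/10)) F := by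
  have h1 : ConvexOn ℝ (Icc (-9/10 : ℝ) (-7/10)) (fun x : ℝ => (x + 21 / 20)⁻¹) := by
    have h : ConvexOn ℝ (Ioi (0:ℝ)) (fun x : ℝ => x⁻¹) := by
      simpa using convexOn_zpow (𝕜 := ℝ) (-1)
    have h2 := h.comp_affineMap (AffineMap.lineMap (21/20 : ℝ) (41/20))
    refine ConvexOn.congr (h2.subset ?_ (convex_Icc _ _)) ?_
    · intro x hx
      simp only [AffineMap.lineMap_apply, mem_preimage, mem_Ioi, vsub_eq_sub, smul_eq_mul, vadd_eq_add]
      linarith [hx.1]
    · intro x _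
      simp only [AffineMap.lineMap_apply, Function.comp, vsub_eq_sub, smul_eq_mul, vadd_eq_add]
      congr 1
      ring
  have h2 : ConcaveOn ℝ (Icc (-9/10 : ℝ) (-7/10)) (fun x : ℝ => x + 3 - (1 / 10) * (x + 21 / 20)⁻¹) := by
    have ha : ConcaveOn ℝ (Icc (-9/10 : ℝ) (-7/10)) (fun x : ℝ => x + 3) :=
      (concaveOn_id (convex_Icc _ _)).add_const 3
    have hb : ConvexOn ℝ (Icc (-9/10 : ℝ) (-7/10)) (fun x : ℝ => (1 / 10) * (x + 21 / 20)⁻¹) :=
      h1.smul (by norm_num)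
    exact ha.sub hb
  refine h2.congr ?_
  intro x hx
  have h3 : 0 < x + 21 / 20 := by linarith [hx.1]
  simp only
  rw [F_eq h3.ne']

theorem F_cont : ContinuousOn F (Icc (-9/10 : ℝ) (-7/10)) := by
  unfold F
  refine ContinuousOn.div (by fun_prop) (by fun_prop) ?_
  intro x hx
  linarith [hx.1]

theorem F_E {x : ℝ} (hx : x ∈ Icc (-9/10 : ℝ) (-7/10)) : F x = (1 - x) * E x := by
  unfold F E
  have h1 : (1 - x) ≠ 0 := by linarith [hx.2]
  have h2 : x + 21 / 20 ≠ 0 := by linarith [hx.1]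
  field_simp

/-- The pair of bodies for the standard pair of points. -/
theorem std (hE : S_ELEM) (hF : S_FIX) (hB : S_BODY) (hC : S_CHORD) :
    ∃ K L : Set Plane, IsBody K ∧ IsBody L ∧ K ≠ L ∧
      (!₂[-1, 0] : Plane) ∉ K ∧ (!₂[1, 0] : Plane) ∉ K ∧
      (!₂[-1, 0] : Plane) ∉ L ∧ (!₂[1, 0] : Plane) ∉ L ∧
      (∀ θ, chord K !₂[-1, 0] θ = chord L !₂[-1, 0] θ) ∧
      (∀ θ, chord K !₂[1, 0] θ = chord L !₂[1, 0] θ) ∧
      (∃ z ∈ interior K, z ∈ openSegment ℝ (!₂[-1, 0] : Plane) !₂[1, 0]) ∧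
      (∃ w ∈ interior L, (!₂[-1, 0] : Plane) ∈ openSegment ℝ w !₂[1, 0]) := by
  obtain ⟨Epos, Emono, Econc, Elip, a, ha, hint⟩ := hE
  obtain ⟨b, hb⟩ : ∃ b : ℝ, b = -7/10 := ⟨_, rfl⟩
  rw [← hb] at hint
  obtain ⟨ℓ, hℓ⟩ : ∃ ℓ : ℝ, ℓ = b - a := ⟨_, rfl⟩
  rw [← hℓ] at hint
  have hℓ0 : 0 < ℓ := by rw [hℓ, hb]; linarith [ha.2]
  have hin : ∀ t ∈ Icc 0 ℓ, a + t ∈ Icc (-9/10 : ℝ) (-7/10) := by
    intro t ht
    constructor
    · linarith [ha.1, ht.1]
    · have := ht.2; rw [hℓ, hb] at this; linarith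
  obtain ⟨g, gpos, ganti, gconc, gcont, gvol⟩ := hF ℓ 10 (fun t => E (a + t)) hℓ0
    (fun t ht => Epos _ (hin t ht))
    (fun x hx y hy hxy => Emono (hin x hx) (hin y hy) (by linarith))
    ⟨convex_Icc _ _, fun x hx y hy u v hu hv huv => by
      have h := Econc.2 (hin x hx) (hin y hy) hu hv huv
      simp only [smul_eq_mul] at h ⊢
      have e1 : a + (u * x + v * y) = u * (a + x) + v * (a + y) := by
        linear_combination (-a) * huv
      rw [e1]; exact h⟩
    (fun x hx y hy => by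
      have h := Elip _ (hin x hx) _ (hin y hy)
      simpa using h) hint
  -- the interval of `K`
  have hab : a < b := by linarith
  have hxt : ∀ x ∈ Icc a b, x - a ∈ Icc 0 ℓ := by
    intro x hx
    exact ⟨by linarith [hx.1], by rw [hℓ]; linarith [hx.2]⟩
  have hxin : ∀ x ∈ Icc a b, x ∈ Icc (-9/10 : ℝ) (-7/10) := by
    intro x hx
    exact ⟨by linarith [hx.1, ha.1], by linarith [hx.2]⟩
  have hsub : Icc a b ⊆ Icc (-9/10 : ℝ) (-7/10) := hxin
  obtain ⟨c, hc⟩ : ∃ c : ℝ, c = a + 41 / 20 := ⟨_, rfl⟩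
  obtain ⟨d, hd⟩ : ∃ d : ℝ, d = b + 41 / 20 := ⟨_, rfl⟩
  have hcd : -d < -c := by linarith
  have hXt : ∀ X ∈ Icc (-d) (-c), -X - c ∈ Icc 0 ℓ := by
    intro X hX
    exact ⟨by linarith [hX.2], by rw [hℓ]; linarith [hX.1]⟩
  set k : ℝ → ℝ := fun x => g (x - a) * F x with hk
  set m : ℝ → ℝ := fun X => g (-X - c) * (1 - X) with hm
  -- K is a body
  have gk_anti : AntitoneOn (fun x => g (x - a)) (Icc a b) := fun x hx y hy hxy =>
    ganti (hxt x hx) (hxt y hy) (by linarith)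
  have gk_conc : ConcaveOn ℝ (Icc a b) (fun x => g (x - a)) := by
    refine ⟨convex_Icc _ _, fun x hx y hy u v hu hv huv => ?_⟩
    have h := gconc.2 (hxt x hx) (hxt y hy) hu hv huv
    simp only [smul_eq_mul] at h ⊢
    have e1 : u * x + v * y - a = u * (x - a) + v * (y - a) := by
      linear_combination a * huv
    rw [e1]; exact h
  have gk_cont : ContinuousOn (fun x => g (x - a)) (Icc a b) :=
    gcont.comp (by fun_prop) hxt
  have kpos : ∀ x ∈ Icc a b, 0 < k x := fun x hx =>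
    mul_pos (gpos _ (hxt x hx)) (F_pos (hxin x hx))
  have kconc : ConcaveOn ℝ (Icc a b) k :=
    gk_conc.mul (F_conc.subset hsub (convex_Icc _ _)) (fun x hx => (gpos _ (hxt x hx)).le)
      (fun x hx => (F_pos (hxin x hx)).le) (gk_anti.antivaryOn (F_mono.mono hsub))
  have kcont : ContinuousOn k (Icc a b) := gk_cont.mul (F_cont.mono hsub)
  obtain ⟨hKb, hKi⟩ := hB a b k hab kconc kcont kpos
  -- L is a body
  have gm_mono : MonotoneOn (fun X => g (-X - c)) (Icc (-d) (-c)) := fun x hx y hy hxy =>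
    ganti (hXt y hy) (hXt x hx) (by linarith)
  have gm_conc : ConcaveOn ℝ (Icc (-d) (-c)) (fun X => g (-X - c)) := by
    refine ⟨convex_Icc _ _, fun x hx y hy u v hu hv huv => ?_⟩
    have h := gconc.2 (hXt x hx) (hXt y hy) hu hv huv
    simp only [smul_eq_mul] at h ⊢
    have e1 : -(u * x + v * y) - c = u * (-x - c) + v * (-y - c) := by
      linear_combination c * huv
    rw [e1]; exact h
  have gm_cont : ContinuousOn (fun X => g (-X - c)) (Icc (-d) (-c)) :=
    gcont.comp (by fun_prop) hXt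
  have one_pos : ∀ X ∈ Icc (-d) (-c), 0 < 1 - X := by
    intro X hX
    have := hX.2
    linarith [ha.1]
  have one_anti : AntitoneOn (fun X : ℝ => 1 - X) (Icc (-d) (-c)) := fun x _ y _ hxy => by
    simp only; linarith
  have one_conc : ConcaveOn ℝ (Icc (-d) (-c)) (fun X : ℝ => 1 - X) := by
    refine ⟨convex_Icc _ _, fun x _ y _ u v _ _ huv => ?_⟩
    simp only [smul_eq_mul]
    apply le_of_eq
    linear_combination huv
  have mpos : ∀ X ∈ Icc (-d) (-c), 0 < m X := fun X hX =>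
    mul_pos (gpos _ (hXt X hX)) (one_pos X hX)
  have mconc : ConcaveOn ℝ (Icc (-d) (-c)) m :=
    gm_conc.mul one_conc (fun x hx => (gpos _ (hXt x hx)).le)
      (fun x hx => (one_pos x hx).le) (gm_mono.antivaryOn one_anti)
  have mcont : ContinuousOn m (Icc (-d) (-c)) := gm_cont.mul (by fun_prop)
  obtain ⟨hLb, hLi⟩ := hB (-d) (-c) m hcd mconc mcont mpos
  -- the points are outside
  have P1 : (-1 : ℝ) ∉ Icc a b := fun h => by linarith [h.1, ha.1]
  have P2 : (1 : ℝ) ∉ Icc a b := fun h => by linarith [h.2]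
  have P3 : (-1 : ℝ) ∉ Icc (-d) (-c) := fun h => by linarith [h.2, ha.1]
  have P4 : (1 : ℝ) ∉ Icc (-d) (-c) := fun h => by linarith [h.2, ha.1]
  have z0 : ∀ x : ℝ, (!₂[x, 0] : Plane) 0 = x := fun x => rfl
  refine ⟨Sub a b k, Sub (-d) (-c) m, hKb, hLb, ?_, ?_, ?_, ?_, ?_, ?_, ?_, ?_, ?_⟩
  · intro h
    have hz : (!₂[a, 0] : Plane) ∈ Sub a b k := by
      refine ⟨?_, ?_⟩
      · rw [z0]; exact ⟨le_refl _, hab.le⟩
      · have : (!₂[a, 0] : Plane) 1 = 0 := rfl
        rw [this, z0, abs_zero]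
        exact (kpos a ⟨le_refl _, hab.le⟩).le
    rw [h] at hz
    have := hz.1
    rw [z0] at this
    linarith [this.2, ha.1]
  · intro h; exact P1 h.1
  · intro h; exact P2 h.1
  · intro h; exact P3 h.1
  · intro h; exact P4 h.1
  · -- chord functions at (-1, 0)
    intro θ
    rw [hC a b k (-1) θ P1, hC (-d) (-c) m (-1) θ P3]
    split_ifs with hθ
    · rfl
    · congr 2
      set s := |Real.tan θ| with hs
      set U : Set ℝ := {t | t ∈ Icc 0 ℓ ∧ s * (a + t + 1) ≤ g t * F (a + t)} with hU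
      have e1 : {x | x ∈ Icc a b ∧ s * |x - -1| ≤ k x} = {x | x - a ∈ U} := by
        ext x
        simp only [hU, mem_ofPred_eq, hk]
        have h1 : x ∈ Icc a b ↔ x - a ∈ Icc 0 ℓ := by
          rw [mem_Icc, mem_Icc, hℓ]
          constructor <;> rintro ⟨h1, h2⟩ <;> constructor <;> linarith
        rw [h1]
        refine and_congr_right fun hx => ?_
        have h2 : 0 ≤ x - -1 := by linarith [hx.1, ha.1]
        rw [abs_of_nonneg h2]
        have e2 : a + (x - a) = x := by ring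
        rw [e2, sub_neg_eq_add]
      have e3 : {X | X ∈ Icc (-d) (-c) ∧ s * |X - -1| ≤ m X} = {X | -X - c ∈ U} := by
        ext X
        simp only [hU, mem_ofPred_eq, hm]
        have h1 : X ∈ Icc (-d) (-c) ↔ -X - c ∈ Icc 0 ℓ := by
          rw [mem_Icc, mem_Icc, hℓ]
          constructor <;> rintro ⟨h1, h2⟩ <;> constructor <;> linarith
        rw [h1]
        refine and_congr_right fun hx => ?_
        have h2 : X - -1 ≤ 0 := by linarith [hx.1, ha.1]
        rw [abs_of_nonpos h2]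
        -- x = -X - 41/20
        have e4 : a + (-X - c) = -X - 41/20 := by rw [hc]; ring
        rw [e4]
        have hxin' := hin _ hx
        rw [e4] at hxin'
        have q1 : 0 < -X - 41/20 + 1 := by linarith [hxin'.1]
        have q2 : 0 < -X - 41/20 + 21/20 := by linarith [hxin'.1]
        have e5 : F (-X - 41/20) = (-X - 41/20 + 1) * (1 - X) / (-X - 41/20 + 21/20) := by
          unfold F; congr 1; ring
        rw [e5]
        have e6 : g (-X - c) * ((-X - 41/20 + 1) * (1 - X) / (-X - 41/20 + 21/20)) =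
          (-X - 41/20 + 1) * (g (-X - c) * (1 - X)) / (-X - 41/20 + 21/20) := by ring
        rw [e6, le_div_iff₀ q2]
        have e7 : s * (-X - 41/20 + 1) * (-X - 41/20 + 21/20) =
          (-X - 41/20 + 1) * (s * -(X - -1)) := by ring
        rw [e7, mul_le_mul_iff_right₀ q1]
      rw [e1, e3, vol_shift, vol_refl]
  · -- chord functions at (1, 0)
    intro θ
    rw [hC a b k 1 θ P2, hC (-d) (-c) m 1 θ P4]
    split_ifs with hθ
    · rfl
    · congr 2
      set s := |Real.tan θ| with hs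
      have e1 : {x | x ∈ Icc a b ∧ s * |x - 1| ≤ k x} =
          {x | x - a ∈ {t | t ∈ Icc 0 ℓ ∧ s ≤ g t * E (a + t)}} := by
        ext x
        simp only [mem_ofPred_eq, hk]
        have h1 : x ∈ Icc a b ↔ x - a ∈ Icc 0 ℓ := by
          rw [mem_Icc, mem_Icc, hℓ]
          constructor <;> rintro ⟨h1, h2⟩ <;> constructor <;> linarith
        rw [h1]
        refine and_congr_right fun hx => ?_
        have hx' := hin _ hx
        have e2 : a + (x - a) = x := by ring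
        rw [e2] at hx' ⊢
        have h2 : x - 1 ≤ 0 := by linarith [hx'.2]
        have h3 : 0 < 1 - x := by linarith [hx'.2]
        rw [abs_of_nonpos h2, F_E hx']
        have e6 : g (x - a) * ((1 - x) * E x) = (1 - x) * (g (x - a) * E x) := by ring
        have e7 : s * -(x - 1) = (1 - x) * s := by ring
        rw [e6, e7, mul_le_mul_iff_right₀ h3]
      have e3 : {X | X ∈ Icc (-d) (-c) ∧ s * |X - 1| ≤ m X} =
          {X | -X - c ∈ {t | t ∈ Icc 0 ℓ ∧ s ≤ g t}} := by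
        ext X
        simp only [mem_ofPred_eq, hm]
        have h1 : X ∈ Icc (-d) (-c) ↔ -X - c ∈ Icc 0 ℓ := by
          rw [mem_Icc, mem_Icc, hℓ]
          constructor <;> rintro ⟨h1, h2⟩ <;> constructor <;> linarith
        rw [h1]
        refine and_congr_right fun hx => ?_
        have h3 : 0 < 1 - X := by linarith [hx.1, ha.1]
        have h2 : X - 1 ≤ 0 := by linarith
        rw [abs_of_nonpos h2]
        have e6 : g (-X - c) * (1 - X) = (1 - X) * g (-X - c) := by ring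
        have e7 : s * -(X - 1) = (1 - X) * s := by ring
        rw [e6, e7, mul_le_mul_iff_right₀ h3]
      rw [e1, e3, vol_shift, vol_refl, gvol s]
  · refine ⟨_, hKi ((a + b) / 2) ⟨by linarith, by linarith⟩, ?_⟩
    refine ⟨(1 - (a + b) / 2) / 2, (1 + (a + b) / 2) / 2, by linarith, by linarith [ha.1], by ring, ?_⟩
    ext i
    fin_cases i
    · simp; ring
    · simp
  · obtain ⟨u, hu⟩ : ∃ u : ℝ, u = (c + d) / 2 := ⟨_, rfl⟩
    refine ⟨_, hLi (-u) ⟨by linarith, by linarith⟩, ?_⟩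
    have h2 : 1 < u := by linarith [ha.1]
    have h1 : 0 < 1 + u := by linarith
    refine ⟨2 / (1 + u), (u - 1) / (1 + u), by positivity,
      div_pos (by linarith) h1, by rw [← add_div]; exact div_eq_one_iff_eq h1.ne' |>.2 (by ring), ?_⟩
    ext i
    fin_cases i
    · change 2 / (1 + u) * (-u) + (u - 1) / (1 + u) * 1 = -1
      field_simp
      ring
    · change 2 / (1 + u) * 0 + (u - 1) / (1 + u) * 0 = 0
      ring

end MainL

open MainL in
/-- Two points never suffice. -/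
theorem main (hE : S_ELEM) (hF : S_FIX) (hB : S_BODY) (hC : S_CHORD) (hT : S_TRANS)
    (x y : Plane) (hxy : x ≠ y) :
    ∃ K L : Set Plane, IsBody K ∧ IsBody L ∧ K ≠ L ∧
      x ∉ K ∧ y ∉ K ∧ x ∉ L ∧ y ∉ L ∧
      (∀ θ, chord K x θ = chord L x θ) ∧ (∀ θ, chord K y θ = chord L y θ) ∧
      (∃ z ∈ interior K, z ∈ openSegment ℝ x y) ∧
      (∃ w ∈ interior L, x ∈ openSegment ℝ w y) := by
  obtain ⟨K, L, hK, hL, hKL, p1, p2, p3, p4, c1, c2, ⟨z, hz, hz'⟩, ⟨w, hw, hw'⟩⟩ := std hE hF hB hC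
  obtain ⟨φ, ρ, θ₀, hρ, hinj, hx, hy, hbody, hch, hint, hseg⟩ := hT x y hxy
  refine ⟨φ '' K, φ '' L, hbody K hK, hbody L hL, fun h => hKL (hinj.image_injective h),
    ?_, ?_, ?_, ?_, fun θ => ?_, fun θ => ?_, ⟨φ z, ?_, ?_⟩, ⟨φ w, ?_, ?_⟩⟩
  · rw [← hx]; rintro ⟨u, hu, hu'⟩; exact p1 (hinj hu' ▸ hu)
  · rw [← hy]; rintro ⟨u, hu, hu'⟩; exact p2 (hinj hu' ▸ hu)
  · rw [← hx]; rintro ⟨u, hu, hu'⟩; exact p3 (hinj hu' ▸ hu)
  · rw [← hy]; rintro ⟨u, hu, hu'⟩; exact p4 (hinj hu' ▸ hu)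
  · rw [← hx, hch, hch, c1]
  · rw [← hy, hch, hch, c2]
  · rw [← hint]; exact ⟨z, hz, rfl⟩
  · rw [← hx, ← hy]; exact hseg _ _ _ hz'
  · rw [← hint]; exact ⟨w, hw, rfl⟩
  · rw [← hx, ← hy]; exact hseg _ _ _ hw'

end Pool.Agent.Helper76K9.XR
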