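import Pool.Agent.Helper76K9.XR.Defs

/-!
[SOP] elementary properties of the sup-min operator.
-/

open Set MeasureTheory

namespace Pool.Agent.Helper76K9.XR

namespace SopL

/-- The supremum is attained. -/
theorem ext {ℓ : ℝ} {f : ℝ → ℝ} (hf : ContinuousOn f (Icc 0 ℓ)) {ξ : ℝ} (hξ : ξ ∈ Icc 0 ℓ) :
    ∃ y ∈ Icc 0 (ℓ - ξ), S ℓ f ξ = min (f y) (f (y + ξ)) ∧
      ∀ z ∈ Icc 0 (ℓ - ξ), min (f z) (f (z + ξ)) ≤ S ℓ f ξ := by
  have hne : (Icc 0 (ℓ - ξ)).Nonempty := ⟨0, by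
    obtain ⟨h1, h2⟩ := hξ
    exact ⟨le_rfl, by linarith⟩⟩
  have hc : ContinuousOn (fun y => min (f y) (f (y + ξ))) (Icc 0 (ℓ - ξ)) := by
    apply ContinuousOn.inf
    · exact hf.mono (by
        rintro y ⟨h1, h2⟩
        obtain ⟨h3, h4⟩ := hξ
        exact ⟨h1, by linarith⟩)
    · apply hf.comp (by fun_prop)
      rintro y ⟨h1, h2⟩
      obtain ⟨h3, h4⟩ := hξ
      exact ⟨by simp only; linarith, by simp only; linarith⟩
  obtain ⟨y, hy, hmax⟩ := isCompact_Icc.exists_isMaxOn hne hc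
  have hg : IsGreatest ((fun y => min (f y) (f (y + ξ))) '' Icc 0 (ℓ - ξ))
      (min (f y) (f (y + ξ))) := by
    refine ⟨⟨y, hy, rfl⟩, ?_⟩
    rintro w ⟨z, hz, rfl⟩
    exact hmax hz
  refine ⟨y, hy, hg.csSup_eq, ?_⟩
  intro z hz
  unfold S
  rw [hg.csSup_eq]
  exact hg.2 ⟨z, hz, rfl⟩

theorem one_side {ℓ : ℝ} {f g : ℝ → ℝ} (hf : ContinuousOn f (Icc 0 ℓ))
    (hg : ContinuousOn g (Icc 0 ℓ)) {δ : ℝ} (h : ∀ y ∈ Icc 0 ℓ, |f y - g y| ≤ δ) {ξ : ℝ}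
    (hξ : ξ ∈ Icc 0 ℓ) : S ℓ f ξ - S ℓ g ξ ≤ δ := by
  obtain ⟨y, hy, h1, -⟩ := ext hf hξ
  obtain ⟨-, -, -, h2⟩ := ext hg hξ
  have h3 := h2 y hy
  rw [h1]
  have hy1 : y ∈ Icc 0 ℓ := ⟨hy.1, by linarith [hy.2, hξ.1]⟩
  have hy2 : y + ξ ∈ Icc 0 ℓ := ⟨by linarith [hy.1, hξ.1], by linarith [hy.2]⟩
  have h4 := (abs_le.mp (h y hy1)).2
  have h5 := (abs_le.mp (h _ hy2)).2
  have h6 : min (f y) (f (y + ξ)) ≤ min (g y) (g (y + ξ)) + δ := by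
    rcases min_choice (g y) (g (y + ξ)) with h7 | h7
    · rw [h7]; exact (min_le_left _ _).trans (by linarith)
    · rw [h7]; exact (min_le_right _ _).trans (by linarith)
  linarith

theorem anti {ℓ : ℝ} {f : ℝ → ℝ} (hf : ContinuousOn f (Icc 0 ℓ))
    (hq : QuasiconcaveOn ℝ (Icc 0 ℓ) f) : AntitoneOn (S ℓ f) (Icc 0 ℓ) := by
  intro ξ hξ ξ' hξ' hle
  obtain ⟨y, hy, h1, -⟩ := ext hf hξ'
  obtain ⟨-, -, -, h2⟩ := ext hf hξ
  rw [h1]
  have hy0 : y ∈ Icc 0 (ℓ - ξ) := ⟨hy.1, by linarith [hy.2]⟩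
  refine le_trans ?_ (h2 y hy0)
  refine le_min (min_le_left _ _) ?_
  have hA : y ∈ Icc 0 ℓ := ⟨hy.1, by linarith [hy.2, hξ'.1]⟩
  have hB : y + ξ' ∈ Icc 0 ℓ := ⟨by linarith [hy.1, hξ'.1], by linarith [hy.2]⟩
  have hconv := hq (min (f y) (f (y + ξ')))
  have hoc := hconv.ordConnected
  have hm := hoc.out ⟨hA, min_le_left _ _⟩ ⟨hB, min_le_right _ _⟩
  exact (hm ⟨by linarith [hξ.1], by linarith⟩).2

theorem lip_cont {ℓ : ℝ} (hℓ : 0 < ℓ) {f : ℝ → ℝ} {M : ℝ}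
    (h : ∀ x ∈ Icc 0 ℓ, ∀ y ∈ Icc 0 ℓ, |f x - f y| ≤ M * |x - y|) :
    0 ≤ M ∧ ContinuousOn f (Icc 0 ℓ) := by
  have hM : 0 ≤ M := by
    have h1 := h ℓ ⟨hℓ.le, le_rfl⟩ 0 ⟨le_rfl, hℓ.le⟩
    have h2 := (abs_nonneg _).trans h1
    rw [sub_zero, abs_of_pos hℓ] at h2
    by_contra h3
    push Not at h3
    nlinarith
  refine ⟨hM, ?_⟩
  have hL : LipschitzOnWith ⟨M, hM⟩ f (Icc 0 ℓ) := by
    apply LipschitzOnWith.of_dist_le_mul
    intro x hx y hy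
    rw [Real.dist_eq, Real.dist_eq]
    exact h x hx y hy
  exact hL.continuousOn

theorem lip_side {ℓ : ℝ} (hℓ : 0 < ℓ) {f : ℝ → ℝ} {M : ℝ} (hq : QuasiconcaveOn ℝ (Icc 0 ℓ) f)
    (h : ∀ x ∈ Icc 0 ℓ, ∀ y ∈ Icc 0 ℓ, |f x - f y| ≤ M * |x - y|) {x y : ℝ}
    (hx : x ∈ Icc 0 ℓ) (hy : y ∈ Icc 0 ℓ) (hxy : x ≤ y) :
    |S ℓ f x - S ℓ f y| ≤ M * |x - y| := by
  obtain ⟨hM, hf⟩ := lip_cont hℓ h
  have hanti := anti hf hq hx hy hxy
  rw [abs_of_nonneg (by linarith), abs_sub_comm, abs_of_nonneg (by linarith : 0 ≤ y - x)]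
  obtain ⟨u, hu, h1, -⟩ := ext hf hx
  obtain ⟨-, -, -, h2⟩ := ext hf hy
  have hx' := hx
  have hy' := hy
  obtain ⟨hx1, hx2⟩ := hx'
  obtain ⟨hy1, hy2⟩ := hy'
  obtain ⟨hu1, hu2⟩ := hu
  have hw : min u (ℓ - y) ∈ Icc 0 (ℓ - y) :=
    ⟨le_min hu1 (by linarith), min_le_right _ _⟩
  have h3 := h2 _ hw
  set w := min u (ℓ - y) with hwdef
  have hwu : w ≤ u := min_le_left _ _
  have hwl : u - w ≤ y - x := by
    rcases min_choice u (ℓ - y) with h7 | h7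
    · rw [hwdef, h7]; linarith
    · rw [hwdef, h7]; linarith
  have hA : u ∈ Icc 0 ℓ := ⟨hu1, by linarith⟩
  have hB : w ∈ Icc 0 ℓ := ⟨hw.1, by linarith [hw.2]⟩
  have hC : u + x ∈ Icc 0 ℓ := ⟨by linarith, by linarith⟩
  have hD : w + y ∈ Icc 0 ℓ := ⟨by linarith [hw.1], by linarith [hw.2]⟩
  have h4 := (abs_le.mp (h u hA w hB)).2
  have h5 := (abs_le.mp (h _ hC _ hD)).2
  rw [abs_of_nonneg (by linarith : 0 ≤ u - w)] at h4
  have e : |u + x - (w + y)| ≤ y - x := by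
    rw [abs_le]; constructor <;> linarith
  have h6 : f u ≤ f w + M * (y - x) := by nlinarith
  have h7 : f (u + x) ≤ f (w + y) + M * (y - x) := by nlinarith
  rw [h1]
  have h8 : min (f u) (f (u + x)) ≤ min (f w) (f (w + y)) + M * (y - x) := by
    rcases min_choice (f w) (f (w + y)) with h9 | h9
    · rw [h9]; exact (min_le_left _ _).trans h6
    · rw [h9]; exact (min_le_right _ _).trans h7
  linarith

theorem conc {ℓ : ℝ} {f : ℝ → ℝ} (hf : ContinuousOn f (Icc 0 ℓ))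
    (hc : ConcaveOn ℝ (Icc 0 ℓ) f) : ConcaveOn ℝ (Icc 0 ℓ) (S ℓ f) := by
  refine ⟨convex_Icc _ _, ?_⟩
  intro x hx y hy a b ha hb hab
  have hz : a • x + b • y ∈ Icc 0 ℓ := convex_Icc 0 ℓ hx hy ha hb hab
  obtain ⟨u, hu, h1, -⟩ := ext hf hx
  obtain ⟨v, hv, h2, -⟩ := ext hf hy
  obtain ⟨-, -, -, h3⟩ := ext hf hz
  have hx' := hx
  have hy' := hy
  obtain ⟨hx1, hx2⟩ := hx'
  obtain ⟨hy1, hy2⟩ := hy'
  obtain ⟨hu1, hu2⟩ := hu
  obtain ⟨hv1, hv2⟩ := hv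
  simp only [smul_eq_mul] at h3 ⊢
  have hw : a * u + b * v ∈ Icc 0 (ℓ - (a * x + b * y)) := by
    constructor
    · positivity
    · have h4 : a * (ℓ - x - u) + b * (ℓ - y - v) ≥ 0 := by
        have h5 : 0 ≤ ℓ - x - u := by linarith
        have h6 : 0 ≤ ℓ - y - v := by linarith
        positivity
      have h7 : (a + b) * ℓ = ℓ := by rw [hab, one_mul]
      nlinarith
  refine le_trans ?_ (h3 _ hw)
  have hA : u ∈ Icc 0 ℓ := ⟨hu1, by linarith⟩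
  have hB : v ∈ Icc 0 ℓ := ⟨hv1, by linarith⟩
  have hC : u + x ∈ Icc 0 ℓ := ⟨by linarith, by linarith⟩
  have hD : v + y ∈ Icc 0 ℓ := ⟨by linarith, by linarith⟩
  have h4 := hc.2 hA hB ha hb hab
  have h5 := hc.2 hC hD ha hb hab
  simp only [smul_eq_mul] at h4 h5
  have e : a * (u + x) + b * (v + y) = a * u + b * v + (a * x + b * y) := by ring
  rw [e] at h5
  rw [h1, h2]
  have h6 := min_le_left (f u) (f (u + x))
  have h7 := min_le_right (f u) (f (u + x))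
  have h8 := min_le_left (f v) (f (v + y))
  have h9 := min_le_right (f v) (f (v + y))
  refine le_min ?_ ?_
  · nlinarith [mul_le_mul_of_nonneg_left h6 ha, mul_le_mul_of_nonneg_left h8 hb]
  · nlinarith [mul_le_mul_of_nonneg_left h7 ha, mul_le_mul_of_nonneg_left h9 hb]

theorem exp_S {ℓ : ℝ} {f : ℝ → ℝ} (hf : ContinuousOn f (Icc 0 ℓ)) {ξ : ℝ} (hξ : ξ ∈ Icc 0 ℓ) :
    S ℓ (fun x => Real.exp (f x)) ξ = Real.exp (S ℓ f ξ) := by
  obtain ⟨y, hy, h1, h2⟩ := ext hf hξ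
  have hg : IsGreatest ((fun y => min (Real.exp (f y)) (Real.exp (f (y + ξ)))) '' Icc 0 (ℓ - ξ))
      (Real.exp (S ℓ f ξ)) := by
    refine ⟨⟨y, hy, ?_⟩, ?_⟩
    · simp only
      rw [h1, (Real.exp_monotone).map_min]
    · rintro w ⟨z, hz, rfl⟩
      simp only
      rw [← (Real.exp_monotone).map_min]
      exact Real.exp_le_exp.mpr (h2 z hz)
  exact hg.csSup_eq

end SopL

open SopL in
/-- [SOP] -/
theorem sop : S_SOP := by
  intro ℓ hℓ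
  refine ⟨?_, ?_, ?_, ?_, ?_⟩
  · intro f g hf hg δ h ξ hξ
    rw [abs_le]
    have h1 := one_side hf hg h hξ
    have h2 := one_side hg hf (fun y hy => by rw [abs_sub_comm]; exact h y hy) hξ
    constructor <;> linarith
  · intro f hf hq
    exact anti hf hq
  · intro f M hq h x hx y hy
    rcases le_total x y with h1 | h1
    · exact lip_side hℓ hq h hx hy h1
    · rw [abs_sub_comm, abs_sub_comm x y]
      exact lip_side hℓ hq h hy hx h1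
  · intro f hf hc
    exact conc hf hc
  · intro f hf ξ hξ
    exact exp_S hf hξ

end Pool.Agent.Helper76K9.XR
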