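import Pool.Agent.Helper76K9.XR.Defs

/-!
Point X-rays: similarities.
-/

set_option autoImplicit false

open Set MeasureTheory

namespace Pool.Agent.Helper76K9.XR

/-- multiplication by the complex number `a + b i` -/
noncomputable def simL (a b : ℝ) : Plane →ₗ[ℝ] Plane where
  toFun z := !₂[z 0 * a - z 1 * b, z 0 * b + z 1 * a]
  map_add' z w := by
    ext i
    fin_cases i <;> simp <;> ring
  map_smul' c z := by
    ext i
    fin_cases i <;> simp <;> ring

theorem simL_apply (a b : ℝ) (z : Plane) :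
    simL a b z = !₂[z 0 * a - z 1 * b, z 0 * b + z 1 * a] := rfl

theorem simL_inv {a b r : ℝ} (h : a * a + b * b = r) (hr : r ≠ 0) (z : Plane) :
    simL (a / r) (-b / r) (simL a b z) = z := by
  rw [simL_apply, simL_apply]
  ext i
  fin_cases i
  · simp
    field_simp
    rw [← h]; ring
  · simp
    field_simp
    rw [← h]; ring

theorem trans : S_TRANS := by
  intro x y hxy
  set w : Plane := (2⁻¹ : ℝ) • (y - x) with hw
  set m : Plane := (2⁻¹ : ℝ) • (x + y) with hm
  have hw0 : w ≠ 0 := by
    intro h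
    rw [hw, smul_eq_zero] at h
    rcases h with h | h
    · norm_num at h
    · exact hxy (sub_eq_zero.1 h).symm
  set c : ℂ := ⟨w 0, w 1⟩ with hc
  have hc0 : c ≠ 0 := by
    intro h
    apply hw0
    ext i
    fin_cases i
    · simpa using congrArg Complex.re h
    · simpa using congrArg Complex.im h
  set ρ : ℝ := ‖c‖ with hρ
  have hρ0 : 0 < ρ := norm_pos_iff.2 hc0
  set θ₀ : ℝ := Complex.arg c with hθ
  have ew0 : ρ * Real.cos θ₀ = w 0 := Complex.norm_mul_cos_arg c
  have ew1 : ρ * Real.sin θ₀ = w 1 := Complex.norm_mul_sin_arg c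
  have hr : w 0 * w 0 + w 1 * w 1 = ρ * ρ := by
    rw [← ew0, ← ew1]
    have := Real.cos_sq_add_sin_sq θ₀
    linear_combination (ρ * ρ) * this
  have hr0 : ρ * ρ ≠ 0 := (mul_pos hρ0 hρ0).ne'
  set L := simL (w 0) (w 1) with hL
  set L' := simL (w 0 / (ρ * ρ)) (-w 1 / (ρ * ρ)) with hL'
  have h1 : ∀ z, L' (L z) = z := simL_inv hr hr0
  have h2 : ∀ z, L (L' z) = z := by
    intro z
    have h3 : w 0 / (ρ * ρ) * (w 0 / (ρ * ρ)) + -w 1 / (ρ * ρ) * (-w 1 / (ρ * ρ)) =
        1 / (ρ * ρ) := by
      field_simp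
      linear_combination hr
    have h4 := simL_inv h3 (by positivity) z
    have e1 : w 0 / (ρ * ρ) / (1 / (ρ * ρ)) = w 0 := by field_simp
    have e2 : -(-w 1 / (ρ * ρ)) / (1 / (ρ * ρ)) = w 1 := by field_simp
    rw [e1, e2] at h4
    exact h4
  have cL : Continuous L := LinearMap.continuous_of_finiteDimensional L
  have cL' : Continuous L' := LinearMap.continuous_of_finiteDimensional L'
  let φ : Plane ≃ₜ Plane :=
    { toFun := fun z => m + L z
      invFun := fun z => L' (z - m)
      left_inv := fun z => by simp [h1]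
      right_inv := fun z => by simp [h2]
      continuous_toFun := continuous_const.add cL
      continuous_invFun := cL'.comp (continuous_id.sub continuous_const) }
  have hφ : ∀ z, φ z = m + L z := fun z => rfl
  have hdir : ∀ θ, L (dir (θ - θ₀)) = ρ • dir θ := by
    intro θ
    have e : θ = (θ - θ₀) + θ₀ := by ring
    have hcos : Real.cos θ = Real.cos (θ - θ₀) * Real.cos θ₀ -
        Real.sin (θ - θ₀) * Real.sin θ₀ := by
      rw [← Real.cos_add, ← e]
    have hsin : Real.sin θ = Real.sin (θ - θ₀) * Real.cos θ₀ +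
        Real.cos (θ - θ₀) * Real.sin θ₀ := by
      rw [← Real.sin_add, ← e]
    rw [hL, simL_apply, ← ew0, ← ew1]
    unfold dir
    ext i
    fin_cases i
    · change Real.cos (θ - θ₀) * (ρ * Real.cos θ₀) - Real.sin (θ - θ₀) * (ρ * Real.sin θ₀) =
        ρ * Real.cos θ
      rw [hcos]; ring
    · change Real.cos (θ - θ₀) * (ρ * Real.sin θ₀) + Real.sin (θ - θ₀) * (ρ * Real.cos θ₀) =
        ρ * Real.sin θ
      rw [hsin]; ring
  refine ⟨φ, ρ, θ₀, hρ0, φ.injective, ?_, ?_, ?_, ?_, ?_, ?_⟩
  · rw [hφ, hL, simL_apply, hm, hw]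
    ext i
    fin_cases i <;> simp <;> ring
  · rw [hφ, hL, simL_apply, hm, hw]
    ext i
    fin_cases i <;> simp <;> ring
  · intro K hK
    refine ⟨?_, hK.compact.image φ.continuous, ?_⟩
    · have : φ '' K = (fun z => m + z) '' (L '' K) := by rw [image_image]; rfl
      rw [this]
      exact (hK.convex.linear_image L).translate m
    · rw [← φ.image_interior]
      exact hK.int.image _
  · intro K z θ
    unfold chord
    have e1 : {t : ℝ | φ z + t • dir θ ∈ φ '' K} =
        (fun t => ρ⁻¹ * t) ⁻¹' {t : ℝ | z + t • dir (θ - θ₀) ∈ K} := by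
      ext t
      simp only [mem_setOf_eq, mem_preimage]
      have e2 : φ z + t • dir θ = φ (z + (ρ⁻¹ * t) • dir (θ - θ₀)) := by
        rw [hφ, hφ, map_add, map_smul, hdir, smul_smul, add_assoc]
        congr 3
        field_simp
      rw [e2, φ.injective.mem_set_image]
    rw [e1, Real.volume_preimage_mul_left (inv_ne_zero hρ0.ne'), inv_inv, ENNReal.toReal_mul,
      ENNReal.toReal_ofReal (abs_nonneg _), abs_of_pos hρ0]
  · intro K
    exact φ.image_interior K
  · rintro u v z ⟨a, b, ha, hb, hab, rfl⟩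
    refine ⟨a, b, ha, hb, hab, ?_⟩
    rw [hφ, hφ, hφ, map_add, map_smul, map_smul, smul_add, smul_add]
    have : m = a • m + b • m := by rw [← add_smul, hab, one_smul]
    nth_rewrite 3 [this]
    abel

end Pool.Agent.Helper76K9.XR
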